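import Pool.Agent.Q52.HE.Defs

/-!
# Hyperbolic and elliptic lines on split cubic surfaces: the steps

Each `S_...` is the statement of one step. A step is proved in its own file.
-/

namespace Pool.Agent.Q52.HE

open Finset

/-- J1: type of a line from the resultant of its pencil of binary quadratic forms. -/
def S_pencil : Prop := ∀ (K : Type) [Field K] (F : Subfield K), (2 : K) ≠ 0 →
  ∀ (a : Arr K) (u v n1 n2 : Fin 4 → K) (p0 p1 p2 r0 r1 r2 : K),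
  RatV F u → RatV F v → LinearIndependent K ![u, v] → LinearIndependent K ![n1, n2] →
  p0 ∈ F → p1 ∈ F → p2 ∈ F → r0 ∈ F → r1 ∈ F → r2 ∈ F →
  (∀ α β : K, grad a (α • u + β • v) =
    (p0 * α ^ 2 + p1 * (α * β) + p2 * β ^ 2) • n1 +
    (r0 * α ^ 2 + r1 * (α * β) + r2 * β ^ 2) • n2) →
  res2 p0 p1 p2 r0 r1 r2 ≠ 0 →
  (Hyperbolic F a (Submodule.span K {u, v}) ↔ SqF F (res2 p0 p1 p2 r0 r1 r2)) ∧
  (Elliptic F a (Submodule.span K {u, v}) ↔ ¬ SqF F (res2 p0 p1 p2 r0 r1 r2))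

/-- J2: invariance under changes of coordinates. -/
def S_rel : Prop := ∀ (K : Type) [Field K] [Infinite K] (F : Subfield K) (a b : Arr K), Rel F a b →
  (Smooth a ↔ Smooth b) ∧ (Lines a).ncard = (Lines b).ncard ∧
  ((∀ W ∈ Lines a, DefinedOver F W) ↔ ∀ W ∈ Lines b, DefinedOver F W) ∧
  numH F a = numH F b ∧ numE F a = numE F b

/-- J3: the surface `S(x, y)` is smooth and contains the 27 lines. -/
def S_mem : Prop := ∀ (K : Type) [Field K], (2 : K) ≠ 0 → ∀ (x y : Fin 5 → K), ND x y →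
  Smooth (arrS x y) ∧ ell ∈ Lines (arrS x y) ∧
  (∀ (i : Fin 5) (e : K), e = 1 ∨ e = -1 → lineL x y i e ∈ Lines (arrS x y)) ∧
  ∀ s : Sg, lineM (sg s.1 x) y ∈ Lines (arrS x y)

/-- J4: it contains no other line. -/
def S_all : Prop := ∀ (K : Type) [Field K], (2 : K) ≠ 0 → ∀ (x y : Fin 5 → K), ND x y →
  ∀ W ∈ Lines (arrS x y), W = ell ∨
    (∃ (i : Fin 5) (e : K), (e = 1 ∨ e = -1) ∧ W = lineL x y i e) ∨
    ∃ s : Sg, W = lineM (sg s.1 x) y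

/-- index of the 27 lines -/
abbrev Idx : Type := Unit ⊕ ((Fin 5 × ℤˣ) ⊕ Sg)

/-- the 27 lines -/
noncomputable def fam {K : Type} [Field K] (x y : Fin 5 → K) : Idx → Submodule K (Fin 4 → K)
  | .inl _ => ell
  | .inr (.inl (i, e)) => lineL x y i ((e : ℤ) : K)
  | .inr (.inr s) => lineM (sg s.1 x) y

/-- J5: the 27 lines are different. -/
def S_inj : Prop := ∀ (K : Type) [Field K], (2 : K) ≠ 0 → ∀ (x y : Fin 5 → K), ND x y →
  Function.Injective (fam x y)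

/-- J6: the types of the 27 lines. -/
def S_type : Prop := ∀ (K : Type) [Field K] (F : Subfield K), (2 : K) ≠ 0 →
  ∀ (x y : Fin 5 → K), (∀ i, x i ∈ F) → (∀ i, y i ∈ F) → ND x y →
  (Hyperbolic F (arrS x y) ell ∧ ¬ Elliptic F (arrS x y) ell) ∧
  (∀ (i : Fin 5) (e : K), e = 1 ∨ e = -1 →
    (Hyperbolic F (arrS x y) (lineL x y i e) ↔ SqF F (DD x y i)) ∧
    (Elliptic F (arrS x y) (lineL x y i e) ↔ ¬ SqF F (DD x y i))) ∧
  ∀ s : Sg, (Hyperbolic F (arrS x y) (lineM (sg s.1 x) y) ↔ SqF F (RR (sg s.1 x) y)) ∧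
    (Elliptic F (arrS x y) (lineM (sg s.1 x) y) ↔ ¬ SqF F (RR (sg s.1 x) y))

/-- J7: the possible numbers of non-squares. -/
def S_chi : Prop := ∀ (k : Type) [Field k] [Fintype k], (2 : k) ≠ 0 → ∀ (x y : Fin 5 → k), ND x y →
  ((∀ i, IsSquare (DD x y i)) ∧
    ((∀ s : Sg, IsSquare (RR (sg s.1 x) y)) ∨ ∀ s : Sg, ¬ IsSquare (RR (sg s.1 x) y))) ∨
  ((Nat.card {i // ¬ IsSquare (DD x y i)} = 2 ∨ Nat.card {i // ¬ IsSquare (DD x y i)} = 4) ∧
    Nat.card {s : Sg // ¬ IsSquare (RR (sg s.1 x) y)} = 8)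

/-- J8: the pencil of a line. -/
def S_grad : Prop := ∀ (K : Type) [Field K] [IsAlgClosed K] (F : Subfield K), (2 : K) ≠ 0 →
  ∀ (a : Arr K) (u v : Fin 4 → K), (∀ i j k, a i j k ∈ F) → Smooth a → RatV F u → RatV F v →
  LinearIndependent K ![u, v] → Submodule.span K {u, v} ∈ Lines a →
  ∃ (n1 n2 : Fin 4 → K) (p0 p1 p2 r0 r1 r2 : K), RatV F n1 ∧ RatV F n2 ∧
    LinearIndependent K ![n1, n2] ∧ p0 ∈ F ∧ p1 ∈ F ∧ p2 ∈ F ∧ r0 ∈ F ∧ r1 ∈ F ∧ r2 ∈ F ∧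
    (∀ α β : K, grad a (α • u + β • v) =
      (p0 * α ^ 2 + p1 * (α * β) + p2 * β ^ 2) • n1 +
      (r0 * α ^ 2 + r1 * (α * β) + r2 * β ^ 2) • n2) ∧
    res2 p0 p1 p2 r0 r1 r2 ≠ 0

/-- J9: the normal form at a hyperbolic line. -/
def S_nf : Prop := ∀ (K : Type) [Field K] [IsAlgClosed K] (F : Subfield K), (2 : K) ≠ 0 →
  ∀ (a : Arr K) (W : Submodule K (Fin 4 → K)), (∀ i j k, a i j k ∈ F) → Smooth a → W ∈ Lines a →
  Hyperbolic F a W →
  ∃ β γ g3 g2 g1 g0 : K, β ∈ F ∧ γ ∈ F ∧ g3 ∈ F ∧ g2 ∈ F ∧ g1 ∈ F ∧ g0 ∈ F ∧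
    Rel F a (arrN β γ g3 g2 g1 g0)

/-- J10: over an algebraically closed field the smooth normal forms are the `S(x, y)`. -/
def S_split5 : Prop := ∀ (K : Type) [Field K] [IsAlgClosed K], (2 : K) ≠ 0 →
  ∀ β γ g3 g2 g1 g0 : K, Smooth (arrN β γ g3 g2 g1 g0) →
  ∃ x y : Fin 5 → K, ND x y ∧ arrN β γ g3 g2 g1 g0 = arrS x y

/-- J11: there is a triangle of rational lines. -/
def S_tri : Prop := ∀ (K : Type) [Field K] [IsAlgClosed K] (F : Subfield K), (2 : K) ≠ 0 →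
  ∀ a : Arr K, IsSplit F a → ∃ e1 e2 e3 : Fin 4 → K, RatV F e1 ∧ RatV F e2 ∧ RatV F e3 ∧
    LinearIndependent K ![e1, e2, e3] ∧ Submodule.span K {e2, e3} ∈ Lines a ∧
    Submodule.span K {e1, e3} ∈ Lines a ∧ Submodule.span K {e1, e2} ∈ Lines a

/-- J12: one side of a triangle is hyperbolic if the field is finite. -/
def S_hyp : Prop := ∀ (K : Type) [Field K] [IsAlgClosed K] (F : Subfield K) [Finite F], (2 : K) ≠ 0 →
  ∀ (a : Arr K) (e1 e2 e3 : Fin 4 → K), (∀ i j k, a i j k ∈ F) → Smooth a →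
    RatV F e1 → RatV F e2 → RatV F e3 →
    LinearIndependent K ![e1, e2, e3] → Submodule.span K {e2, e3} ∈ Lines a →
    Submodule.span K {e1, e3} ∈ Lines a → Submodule.span K {e1, e2} ∈ Lines a →
    ∃ W ∈ Lines a, Hyperbolic F a W

/-- J13: if all lines of `S(x, y)` are rational then `x`, `y` can be chosen rational. -/
def S_rat : Prop := ∀ (K : Type) [Field K] (F : Subfield K), (2 : K) ≠ 0 →
  ∀ x y : Fin 5 → K, ND x y → (∀ i j k, arrS x y i j k ∈ F) →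
  (∀ W ∈ Lines (arrS x y), DefinedOver F W) →
  ∃ x' y' : Fin 5 → K, (∀ i, x' i ∈ F) ∧ (∀ i, y' i ∈ F) ∧ ND x' y' ∧ arrS x' y' = arrS x y

/-- J14: small fields. -/
def S_small : Prop := ∀ (k : Type) [Field k] [Fintype k], (2 : k) ≠ 0 → ∀ (x y : Fin 5 → k), ND x y →
  7 ≤ Fintype.card k ∧
  (Fintype.card k = 7 → (∀ i, IsSquare (DD x y i)) ∧ ∀ s : Sg, IsSquare (RR (sg s.1 x) y)) ∧
  (Fintype.card k = 9 ∨ Fintype.card k = 11 ∨ Fintype.card k = 13 →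
    Nat.card {i // ¬ IsSquare (DD x y i)} ≠ 4 ∧
    ((∀ i, IsSquare (DD x y i)) → ∃ s : Sg, IsSquare (RR (sg s.1 x) y)))

/-- J15: surfaces without elliptic lines. -/
def S_e0 : Prop := ∀ (k : Type) [Field k] [Fintype k], (2 : k) ≠ 0 → 7 ≤ Fintype.card k →
  ∃ x y : Fin 5 → k, ND x y ∧ (∀ i, IsSquare (DD x y i)) ∧ IsSquare (RR x y)

/-- J16: surfaces with 12 elliptic lines. -/
def S_e12 : Prop := ∀ (k : Type) [Field k] [Fintype k], (2 : k) ≠ 0 → 9 ≤ Fintype.card k →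
  ∃ x y : Fin 5 → k, ND x y ∧ Nat.card {i // ¬ IsSquare (DD x y i)} = 2

/-- J17: surfaces with 16 elliptic lines, number of elements 1 modulo 4. -/
def S_e16a : Prop := ∀ (k : Type) [Field k] [Fintype k], (2 : k) ≠ 0 → 17 ≤ Fintype.card k →
  Fintype.card k % 4 = 1 →
  ∃ x y : Fin 5 → k, ND x y ∧ Nat.card {i // ¬ IsSquare (DD x y i)} = 4

/-- J18: surfaces with 16 elliptic lines, number of elements 3 modulo 4. -/
def S_e16b : Prop := ∀ (k : Type) [Field k] [Fintype k], (2 : k) ≠ 0 → 17 ≤ Fintype.card k →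
  Fintype.card k % 4 = 3 →
  ∃ x y : Fin 5 → k, ND x y ∧ (∀ i, IsSquare (DD x y i)) ∧ ¬ IsSquare (RR x y)

end Pool.Agent.Q52.HE
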