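import Pool.Agent.Q52.HE.Stm

/-!
# Hyperbolic and elliptic lines on split cubic surfaces: assembly
-/

namespace Pool.Agent.Q52.HE

open Finset

section
variable {K : Type} [Field K]

lemma sqF_coe (F : Subfield K) (z : F) : SqF F (z : K) ↔ IsSquare z := by
  constructor
  · rintro ⟨r, hr, h⟩
    exact ⟨⟨r, hr⟩, Subtype.ext (by simpa using h.symm)⟩
  · rintro ⟨r, h⟩
    exact ⟨r, r.2, by rw [h]; simp⟩

lemma DD_coe (F : Subfield K) (x y : Fin 5 → F) (i : Fin 5) :
    DD (fun i => (x i : K)) (fun i => (y i : K)) i = ((DD x y i : F) : K) := by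
  unfold DD
  push_cast
  rfl

lemma RR_coe (F : Subfield K) (x y : Fin 5 → F) :
    RR (fun i => (x i : K)) (fun i => (y i : K)) = ((RR x y : F) : K) := by
  unfold RR
  push_cast
  rfl

lemma sg_coe (F : Subfield K) (s : Fin 5 → ℤˣ) (x : Fin 5 → F) :
    sg s (fun i => (x i : K)) = fun i => ((sg s x i : F) : K) := by
  funext i
  unfold sg
  push_cast
  rfl

lemma ND_coe (F : Subfield K) (x y : Fin 5 → F) :
    ND (fun i => (x i : K)) (fun i => (y i : K)) ↔ ND x y := by
  unfold ND
  refine forall_congr' fun i => forall_congr' fun j => imp_congr_right fun _ => not_congr ?_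
  constructor
  · intro h
    exact Subtype.ext (by push_cast; exact h)
  · intro h
    have := congrArg (fun z : F => (z : K)) h
    push_cast at this
    exact this

lemma unit_cases (e : ℤˣ) : ((e : ℤ) : K) = 1 ∨ ((e : ℤ) : K) = -1 := by
  rcases Int.units_eq_one_or e with rfl | rfl
  · left; simp
  · right; simp

lemma fam_range (h3 : S_mem) (h4 : S_all) (h2 : (2 : K) ≠ 0) (x y : Fin 5 → K) (hxy : ND x y) :
    Lines (arrS x y) = Set.range (fam x y) := by
  obtain ⟨-, m1, m2, m3⟩ := h3 K h2 x y hxy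
  ext W
  constructor
  · intro hW
    rcases h4 K h2 x y hxy W hW with h | ⟨i, e, he, h⟩ | ⟨s, h⟩
    · exact ⟨.inl (), h.symm⟩
    · rcases he with rfl | rfl
      · exact ⟨.inr (.inl (i, 1)), by rw [h]; simp [fam]⟩
      · exact ⟨.inr (.inl (i, -1)), by rw [h]; simp [fam]⟩
    · exact ⟨.inr (.inr s), h.symm⟩
  · rintro ⟨j, rfl⟩
    rcases j with u | ⟨i, e⟩ | s
    · exact m1
    · exact m2 i _ (unit_cases e)
    · exact m3 s

/-- the property of the index that decides the type -/
def sqI {k : Type} [Field k] (x y : Fin 5 → k) : Idx → Prop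
  | .inl _ => True
  | .inr (.inl (i, _)) => IsSquare (DD x y i)
  | .inr (.inr s) => IsSquare (RR (sg s.1 x) y)

lemma types_idx (h6 : S_type) (h2 : (2 : K) ≠ 0) (F : Subfield K) (x y : Fin 5 → F)
    (hxy : ND x y) (j : Idx) :
    (Hyperbolic F (arrS (fun i => (x i : K)) (fun i => (y i : K)))
      (fam (fun i => (x i : K)) (fun i => (y i : K)) j) ↔ sqI x y j) ∧
    (Elliptic F (arrS (fun i => (x i : K)) (fun i => (y i : K)))
      (fam (fun i => (x i : K)) (fun i => (y i : K)) j) ↔ ¬ sqI x y j) := by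
  obtain ⟨t1, t2, t3⟩ := h6 K F h2 (fun i => (x i : K)) (fun i => (y i : K)) (fun i => (x i).2)
    (fun i => (y i).2) ((ND_coe F x y).2 hxy)
  rcases j with u | ⟨i, e⟩ | s
  · exact ⟨⟨fun _ => trivial, fun _ => t1.1⟩, ⟨fun h => absurd h t1.2, fun h => absurd trivial h⟩⟩
  · have := t2 i _ (unit_cases e)
    rw [DD_coe, sqF_coe] at this
    exact this
  · have := t3 s
    rw [sg_coe, RR_coe, sqF_coe] at this
    exact this

lemma card_sqI {k : Type} [Field k] (x y : Fin 5 → k) :
    Nat.card {j // ¬ sqI x y j} = 2 * Nat.card {i // ¬ IsSquare (DD x y i)} +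
      Nat.card {s : Sg // ¬ IsSquare (RR (sg s.1 x) y)} := by
  classical
  have e : {j // ¬ sqI x y j} ≃
      ({i // ¬ IsSquare (DD x y i)} × ℤˣ) ⊕ {s : Sg // ¬ IsSquare (RR (sg s.1 x) y)} :=
    { toFun := fun j => match j with
        | ⟨.inl _, h⟩ => absurd trivial h
        | ⟨.inr (.inl (i, e)), h⟩ => .inl (⟨i, h⟩, e)
        | ⟨.inr (.inr s), h⟩ => .inr ⟨s, h⟩
      invFun := fun j => match j with
        | .inl (i, e) => ⟨.inr (.inl (i.1, e)), i.2⟩
        | .inr s => ⟨.inr (.inr s.1), s.2⟩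
      left_inv := by
        rintro ⟨u | ⟨i, e⟩ | s, h⟩
        · exact absurd trivial h
        · rfl
        · rfl
      right_inv := by
        rintro (⟨i, e⟩ | s)
        · rfl
        · rfl }
  rw [Nat.card_congr e, Nat.card_sum, Nat.card_prod]
  have : Nat.card ℤˣ = 2 := by
    rw [Nat.card_eq_fintype_card]
    rfl
  rw [this]
  ring

lemma card_Idx : Nat.card Idx = 27 := by
  rw [Nat.card_eq_fintype_card]
  decide +kernel

/-- the numbers for `S(x, y)` -/
lemma nums (h3 : S_mem) (h4 : S_all) (h5 : S_inj) (h6 : S_type) (h2 : (2 : K) ≠ 0)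
    (F : Subfield K) (x y : Fin 5 → F) (hxy : ND x y) :
    (Lines (arrS (fun i => (x i : K)) (fun i => (y i : K)))).ncard = 27 ∧
    numE F (arrS (fun i => (x i : K)) (fun i => (y i : K))) =
      2 * Nat.card {i // ¬ IsSquare (DD x y i)} +
        Nat.card {s : Sg // ¬ IsSquare (RR (sg s.1 x) y)} ∧
    numH F (arrS (fun i => (x i : K)) (fun i => (y i : K))) +
      numE F (arrS (fun i => (x i : K)) (fun i => (y i : K))) = 27 := by
  classical
  set X : Fin 5 → K := fun i => (x i : K) with hX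
  set Y : Fin 5 → K := fun i => (y i : K) with hY
  have hn : ND X Y := (ND_coe F x y).2 hxy
  have hr := fam_range h3 h4 h2 X Y hn
  have hi := h5 K h2 X Y hn
  have ht := types_idx h6 h2 F x y hxy
  have c1 : (Lines (arrS X Y)).ncard = 27 := by
    rw [hr, ← Set.image_univ, Set.ncard_image_of_injective _ hi, Set.ncard_univ, card_Idx]
  have c2 : numE F (arrS X Y) = Nat.card {j // ¬ sqI x y j} := by
    unfold numE
    have : {W | W ∈ Lines (arrS X Y) ∧ Elliptic F (arrS X Y) W} =
        fam X Y '' {j | ¬ sqI x y j} := by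
      ext W
      rw [Set.mem_ofPred_eq, hr, Set.mem_image]
      constructor
      · rintro ⟨⟨j, rfl⟩, h⟩
        exact ⟨j, (ht j).2.1 h, rfl⟩
      · rintro ⟨j, hj, rfl⟩
        exact ⟨⟨j, rfl⟩, (ht j).2.2 hj⟩
    rw [this, Set.ncard_image_of_injective _ hi]
    rfl
  have c3 : numH F (arrS X Y) = Nat.card {j // sqI x y j} := by
    unfold numH
    have : {W | W ∈ Lines (arrS X Y) ∧ Hyperbolic F (arrS X Y) W} =
        fam X Y '' {j | sqI x y j} := by
      ext W
      rw [Set.mem_ofPred_eq, hr, Set.mem_image]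
      constructor
      · rintro ⟨⟨j, rfl⟩, h⟩
        exact ⟨j, (ht j).1.1 h, rfl⟩
      · rintro ⟨j, hj, rfl⟩
        exact ⟨⟨j, rfl⟩, (ht j).1.2 hj⟩
    rw [this, Set.ncard_image_of_injective _ hi]
    rfl
  refine ⟨c1, by rw [c2, card_sqI], ?_⟩
  rw [c2, c3, Nat.card_eq_fintype_card, Nat.card_eq_fintype_card, Fintype.card_subtype,
    Fintype.card_subtype, Finset.card_filter_add_card_filter_not, Finset.card_univ,
    ← Nat.card_eq_fintype_card, card_Idx]

end

end Pool.Agent.Q52.HE
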