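import Pool.Agent.Q52.HE.Asm

/-!
# Hyperbolic and elliptic lines on split cubic surfaces: assembly, second part
-/

namespace Pool.Agent.Q52.HE

open Finset

section
variable {K : Type} [Field K]

lemma pc_mem (F : Subfield K) {c d : Fin 5 → K} (hc : ∀ i, c i ∈ F) (hd : ∀ i, d i ∈ F)
    (k : Fin 6) : pc c d k ∈ F := by
  have key : pc c d k = ((pc (fun i => (⟨c i, hc i⟩ : F)) (fun i => (⟨d i, hd i⟩ : F)) k : F) : K) := by
    fin_cases k <;> simp [pc]
  rw [key]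
  exact Subtype.property _

lemma pr_mem (F : Subfield K) {c : Fin 5 → K} (hc : ∀ i, c i ∈ F) : pr c ∈ F := by
  unfold pr
  exact F.mul_mem (F.mul_mem (F.mul_mem (F.mul_mem (hc 0) (hc 1)) (hc 2)) (hc 3)) (hc 4)

lemma two_mem (F : Subfield K) : (2 : K) ∈ F := by
  have := F.add_mem F.one_mem F.one_mem
  rwa [one_add_one_eq_two] at this

lemma arrN_mem (F : Subfield K) {β γ g3 g2 g1 g0 : K} (h1 : β ∈ F) (h2 : γ ∈ F) (h3 : g3 ∈ F)
    (h4 : g2 ∈ F) (h5 : g1 ∈ F) (h6 : g0 ∈ F) (i j k : Fin 4) :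
    arrN β γ g3 g2 g1 g0 i j k ∈ F := by
  have z := F.zero_mem
  have o := F.one_mem
  have n := F.neg_mem o
  have b := F.mul_mem (two_mem F) h1
  have c := F.mul_mem (two_mem F) h2
  fin_cases i <;> fin_cases j <;> fin_cases k <;> simp [arrN] <;> assumption

lemma arrS_mem (F : Subfield K) {x y : Fin 5 → K} (hx : ∀ i, x i ∈ F) (hy : ∀ i, y i ∈ F)
    (i j k : Fin 4) : arrS x y i j k ∈ F := by
  have hx2 : ∀ i, (x ^ 2) i ∈ F := fun i => F.pow_mem (hx i) 2
  have hy2 : ∀ i, (y ^ 2) i ∈ F := fun i => F.pow_mem (hy i) 2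
  exact arrN_mem F (pr_mem F hx) (F.neg_mem (pr_mem F hy)) (F.neg_mem (pc_mem F hx2 hy2 1))
    (pc_mem F hx2 hy2 2) (F.neg_mem (pc_mem F hx2 hy2 3)) (pc_mem F hx2 hy2 4) i j k

lemma ratV_four (F : Subfield K) {a b c d : K} (ha : a ∈ F) (hb : b ∈ F) (hc : c ∈ F) (hd : d ∈ F) :
    RatV F ![a, b, c, d] := by
  intro i
  fin_cases i <;> assumption

lemma fam_def (F : Subfield K) {x y : Fin 5 → K} (hx : ∀ i, x i ∈ F) (hy : ∀ i, y i ∈ F)
    (j : Idx) : DefinedOver F (fam x y j) := by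
  have z := F.zero_mem
  have o := F.one_mem
  rcases j with u | ⟨i, e⟩ | s
  · exact ⟨_, _, ratV_four F o z z z, ratV_four F z o z z, rfl⟩
  · have he : -((e : ℤ) : K) ∈ F := F.neg_mem (intCast_mem F _)
    have ox : others x i ∈ F := F.prod_mem fun j _ => hx j
    have oy : others y i ∈ F := F.prod_mem fun j _ => hy j
    exact ⟨_, _, ratV_four F (hy i) (F.mul_mem he (hx i)) z z,
      ratV_four F (F.mul_mem (F.mul_mem he oy) (F.pow_mem (hx i) 3))
        (F.mul_mem (F.mul_mem he ox) (F.pow_mem (hy i) 3)) (F.pow_mem (hx i) 2)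
        (F.pow_mem (hy i) 2), rfl⟩
  · have hc : ∀ i, sg s.1 x i ∈ F := fun i => F.mul_mem (intCast_mem F _) (hx i)
    exact ⟨_, _, ratV_four F (pc_mem F hc hy 1) (pc_mem F hc hy 2) o z,
      ratV_four F (pc_mem F hc hy 3) (pc_mem F hc hy 4) z o, rfl⟩

lemma split_S (h3 : S_mem) (h4 : S_all) (h5 : S_inj) (h6 : S_type) (h2 : (2 : K) ≠ 0)
    (F : Subfield K) (x y : Fin 5 → F) (hxy : ND x y) :
    IsSplit F (arrS (fun i => (x i : K)) (fun i => (y i : K))) := by
  have hn := (ND_coe F x y).2 hxy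
  refine ⟨arrS_mem F (fun i => (x i).2) fun i => (y i).2, (h3 K h2 _ _ hn).1,
    (nums h3 h4 h5 h6 h2 F x y hxy).1, ?_⟩
  rw [fam_range h3 h4 h2 _ _ hn]
  rintro W ⟨j, rfl⟩
  exact fam_def F (fun i => (x i).2) (fun i => (y i).2) j

/-- a split surface is one of the surfaces `S(x, y)` in other coordinates -/
lemma normal [IsAlgClosed K] (g1 : S_rel) (g2 : S_grad) (g3 : S_nf) (g4 : S_split5)
    (g5 : S_tri) (g6 : S_hyp) (g7 : S_rat) (h2 : (2 : K) ≠ 0) (F : Subfield K) [Finite F]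
    (a : Arr K) (ha : IsSplit F a) :
    ∃ x y : Fin 5 → F, ND x y ∧ Rel F a (arrS (fun i => (x i : K)) (fun i => (y i : K))) := by
  have : Infinite K := IsAlgClosed.instInfinite
  obtain ⟨e1, e2, e3, r1, r2, r3, hl, m1, m2, m3⟩ := g5 K F h2 a ha
  obtain ⟨W, hW, hH⟩ := g6 K F h2 a e1 e2 e3 ha.1 ha.2.1 r1 r2 r3 hl m1 m2 m3
  obtain ⟨β, γ, c3, c2, c1, c0, b1, b2, b3, b4, b5, b6, hR⟩ := g3 K F h2 a W ha.1 ha.2.1 hW hH
  obtain ⟨s1, s2, s3, -, -⟩ := g1 K F a _ hR
  obtain ⟨x0, y0, hn, he⟩ := g4 K h2 β γ c3 c2 c1 c0 (s1.1 ha.2.1)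
  rw [he] at hR s3
  obtain ⟨x, y, hx, hy, hxy, hS⟩ := g7 K F h2 x0 y0 hn
    (by rw [← he]; exact arrN_mem F b1 b2 b3 b4 b5 b6) (s3.1 ha.2.2.2)
  refine ⟨fun i => ⟨x i, hx i⟩, fun i => ⟨y i, hy i⟩, ?_, ?_⟩
  · rw [← ND_coe]
    exact hxy
  · change Rel F a (arrS x y)
    rw [hS]
    exact hR

end

/-- **Main theorem**, assuming the steps. -/
theorem main (g0 : S_pencil) (g1 : S_rel) (g2 : S_grad) (g3 : S_nf) (g4 : S_split5) (g5 : S_tri)
    (g6 : S_hyp) (g7 : S_rat) (h3 : S_mem) (h4 : S_all) (h5 : S_inj) (h6 : S_type) (h7 : S_chi)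
    (h8 : S_small) (h9 : S_e0) (h10 : S_e12) (h11 : S_e16a) (h12 : S_e16b)
    (K : Type) [Field K] [IsAlgClosed K] (F : Subfield K) [Finite F] (hodd : Odd (Nat.card F)) :
    {p : ℕ × ℕ | ∃ a : Arr K, IsSplit F a ∧ p = (numH F a, numE F a)} =
      if Nat.card F < 7 then ∅ else if Nat.card F = 7 then {(27, 0)}
      else if Nat.card F < 17 then {(27, 0), (15, 12)} else {(27, 0), (15, 12), (11, 16)} := by
  classical
  have hinf : Infinite K := IsAlgClosed.instInfinite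
  letI : Fintype F := Fintype.ofFinite F
  have hcard : Nat.card F = Fintype.card F := Nat.card_eq_fintype_card
  have h2F : (2 : F) ≠ 0 := by
    intro h
    have h1 : CharP F 2 := by
      haveI : Nontrivial F := inferInstance
      exact CharTwo.of_one_ne_zero_of_two_eq_zero one_ne_zero h
    have h3 : Fintype.card F % 2 = 0 := (FiniteField.even_card_iff_char_two).1
      ((ringChar.eq F 2))
    rw [hcard, Nat.odd_iff] at hodd
    omega
  have h2 : (2 : K) ≠ 0 := by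
    intro h
    exact h2F (Subtype.ext (by push_cast; exact h))
  -- the pairs of the surfaces `S(x, y)`
  have key : ∀ p : ℕ × ℕ, (∃ a : Arr K, IsSplit F a ∧ p = (numH F a, numE F a)) ↔
      ∃ x y : Fin 5 → F, ND x y ∧ p.2 = 2 * Nat.card {i // ¬ IsSquare (DD x y i)} +
        Nat.card {s : Sg // ¬ IsSquare (RR (sg s.1 x) y)} ∧ p.1 + p.2 = 27 := by
    intro p
    constructor
    · rintro ⟨a, ha, rfl⟩
      obtain ⟨x, y, hxy, hR⟩ := normal g1 g2 g3 g4 g5 g6 g7 h2 F a ha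
      obtain ⟨-, -, -, e1, e2⟩ := g1 K F a _ hR
      obtain ⟨n1, n2, n3⟩ := nums h3 h4 h5 h6 h2 F x y hxy
      refine ⟨x, y, hxy, ?_, ?_⟩
      · rw [e2]; exact n2
      · rw [e1, e2]; exact n3
    · rintro ⟨x, y, hxy, k1, k2⟩
      obtain ⟨n1, n2, n3⟩ := nums h3 h4 h5 h6 h2 F x y hxy
      refine ⟨_, split_S h3 h4 h5 h6 h2 F x y hxy, ?_⟩
      refine Prod.ext ?_ ?_
      · change p.1 = _
        omega
      · change p.2 = _
        omega
  -- numbers
  have cS : Nat.card Sg = 16 := by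
    rw [Nat.card_eq_fintype_card]
    decide +kernel
  have allsq : ∀ x y : Fin 5 → F, (∀ i, IsSquare (DD x y i)) →
      Nat.card {i // ¬ IsSquare (DD x y i)} = 0 := by
    intro x y h
    rw [Nat.card_eq_zero]
    left
    exact ⟨fun j => j.2 (h j.1)⟩
  have Rsq : ∀ x y : Fin 5 → F, (∀ s : Sg, IsSquare (RR (sg s.1 x) y)) →
      Nat.card {s : Sg // ¬ IsSquare (RR (sg s.1 x) y)} = 0 := by
    intro x y h
    rw [Nat.card_eq_zero]
    left
    exact ⟨fun j => j.2 (h j.1)⟩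
  have Rnsq : ∀ x y : Fin 5 → F, (∀ s : Sg, ¬ IsSquare (RR (sg s.1 x) y)) →
      Nat.card {s : Sg // ¬ IsSquare (RR (sg s.1 x) y)} = 16 := by
    intro x y h
    rw [← cS]
    exact Nat.card_congr (Equiv.subtypeUnivEquiv h)
  have one_sg : ∀ x : Fin 5 → F, sg (1 : Fin 5 → ℤˣ) x = x := by
    intro x
    funext i
    simp [sg]
  let s1 : Sg := ⟨1, by simp⟩
  -- existence
  have ex0 : 7 ≤ Nat.card F → ∃ x y : Fin 5 → F, ND x y ∧
      (0 : ℕ) = 2 * Nat.card {i // ¬ IsSquare (DD x y i)} +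
        Nat.card {s : Sg // ¬ IsSquare (RR (sg s.1 x) y)} := by
    intro hq
    obtain ⟨x, y, hxy, k1, k2⟩ := h9 F h2F (by omega)
    refine ⟨x, y, hxy, ?_⟩
    rcases h7 F h2F x y hxy with ⟨-, k3 | k3⟩ | ⟨k3, -⟩
    · rw [allsq x y k1, Rsq x y k3]
    · exact absurd (by rw [one_sg]; exact k2) (k3 s1)
    · rw [allsq x y k1] at k3
      omega
  have ex12 : 9 ≤ Nat.card F → ∃ x y : Fin 5 → F, ND x y ∧
      (12 : ℕ) = 2 * Nat.card {i // ¬ IsSquare (DD x y i)} +
        Nat.card {s : Sg // ¬ IsSquare (RR (sg s.1 x) y)} := by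
    intro hq
    obtain ⟨x, y, hxy, k1⟩ := h10 F h2F (by omega)
    refine ⟨x, y, hxy, ?_⟩
    rcases h7 F h2F x y hxy with ⟨k2, -⟩ | ⟨-, k3⟩
    · rw [allsq x y k2] at k1
      omega
    · rw [k1, k3]
  have ex16 : 17 ≤ Nat.card F → ∃ x y : Fin 5 → F, ND x y ∧
      (16 : ℕ) = 2 * Nat.card {i // ¬ IsSquare (DD x y i)} +
        Nat.card {s : Sg // ¬ IsSquare (RR (sg s.1 x) y)} := by
    intro hq
    rw [Nat.odd_iff] at hodd
    have hm : Fintype.card F % 4 = 1 ∨ Fintype.card F % 4 = 3 := by omega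
    rcases hm with hm | hm
    · obtain ⟨x, y, hxy, k1⟩ := h11 F h2F (by omega) hm
      refine ⟨x, y, hxy, ?_⟩
      rcases h7 F h2F x y hxy with ⟨k2, -⟩ | ⟨-, k3⟩
      · rw [allsq x y k2] at k1
        omega
      · rw [k1, k3]
    · obtain ⟨x, y, hxy, k1, k2⟩ := h12 F h2F (by omega) hm
      refine ⟨x, y, hxy, ?_⟩
      rcases h7 F h2F x y hxy with ⟨-, k3 | k3⟩ | ⟨k3, -⟩
      · exact absurd (by have := k3 s1; rwa [one_sg] at this) k2
      · rw [allsq x y k1, Rnsq x y k3]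
      · rw [allsq x y k1] at k3
        omega
  ext p
  rw [Set.mem_ofPred_eq, key]
  have hpp : ∀ e : ℕ, p.2 = e → p.1 + p.2 = 27 → p = (27 - e, e) := by
    intro e k1 k2
    refine Prod.ext ?_ k1
    change p.1 = 27 - e
    omega
  constructor
  · rintro ⟨x, y, hxy, k1, k2⟩
    obtain ⟨q1, q2, q3⟩ := h8 F h2F x y hxy
    have hq : ¬ Nat.card F < 7 := by omega
    rw [if_neg hq]
    have tri := h7 F h2F x y hxy
    split_ifs with c1 c2
    · obtain ⟨k3, k4⟩ := q2 (by omega)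
      rw [allsq x y k3, Rsq x y k4] at k1
      exact hpp 0 k1 k2
    · rw [Nat.odd_iff] at hodd
      have hnp : Fintype.card F ≠ 15 := by
        intro h15
        have := FiniteField.isPrimePow_card (K := F)
        rw [h15] at this
        revert this
        rw [isPrimePow_nat_iff_bounded]
        decide
      obtain ⟨k3, k4⟩ := q3 (by omega)
      rcases tri with ⟨k5, k6 | k6⟩ | ⟨k5 | k5, k6⟩
      · rw [allsq x y k5, Rsq x y k6] at k1
        left
        exact hpp 0 k1 k2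
      · obtain ⟨s, hs⟩ := k4 k5
        exact absurd hs (k6 s)
      · rw [k5, k6] at k1
        right
        exact hpp 12 k1 k2
      · exact absurd k5 k3
    · rcases tri with ⟨k5, k6 | k6⟩ | ⟨k5 | k5, k6⟩
      · rw [allsq x y k5, Rsq x y k6] at k1
        left
        exact hpp 0 k1 k2
      · rw [allsq x y k5, Rnsq x y k6] at k1
        right; right
        exact hpp 16 k1 k2
      · rw [k5, k6] at k1
        right; left
        exact hpp 12 k1 k2
      · rw [k5, k6] at k1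
        right; right
        exact hpp 16 k1 k2
  · intro hp
    split_ifs at hp with c1 c2 c3
    · exact absurd hp (Set.notMem_empty p)
    · obtain ⟨x, y, hxy, k1⟩ := ex0 (by omega)
      rw [Set.mem_singleton_iff] at hp
      subst hp
      exact ⟨x, y, hxy, k1, rfl⟩
    · rcases hp with hp | hp
      · obtain ⟨x, y, hxy, k1⟩ := ex0 (by omega)
        subst hp
        exact ⟨x, y, hxy, k1, rfl⟩
      · rw [Set.mem_singleton_iff] at hp
        rw [Nat.odd_iff] at hodd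
        obtain ⟨x, y, hxy, k1⟩ := ex12 (by omega)
        subst hp
        exact ⟨x, y, hxy, k1, rfl⟩
    · rcases hp with hp | hp | hp
      · obtain ⟨x, y, hxy, k1⟩ := ex0 (by omega)
        subst hp
        exact ⟨x, y, hxy, k1, rfl⟩
      · obtain ⟨x, y, hxy, k1⟩ := ex12 (by omega)
        subst hp
        exact ⟨x, y, hxy, k1, rfl⟩
      · rw [Set.mem_singleton_iff] at hp
        obtain ⟨x, y, hxy, k1⟩ := ex16 (by omega)
        subst hp
        exact ⟨x, y, hxy, k1, rfl⟩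

end Pool.Agent.Q52.HE
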