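import Mathlib

/-!
# Hyperbolic and elliptic lines on split cubic surfaces: definitions

`K` is a field (algebraically closed in the theorems), `F` a subfield of it. Points of the projective
space are nonzero vectors of `Fin 4 → K`, lines are subspaces of dimension two.
-/

namespace Pool.Agent.Q52.HE

open Finset

section
variable {K : Type} [Field K]

/-- the coefficients of a cubic form in four variables -/
abbrev Arr (K : Type) := Fin 4 → Fin 4 → Fin 4 → K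

/-- the cubic form `∑ a_ijk x_i x_j x_k` -/
def cub (a : Arr K) (x : Fin 4 → K) : K := ∑ i, ∑ j, ∑ k, a i j k * x i * x j * x k

/-- its gradient -/
def grad (a : Arr K) (x : Fin 4 → K) : Fin 4 → K :=
  fun m => ∑ i, ∑ j, (a m i j + a i m j + a i j m) * x i * x j

/-- the vector has coordinates in `F` -/
def RatV (F : Subfield K) (v : Fin 4 → K) : Prop := ∀ i, v i ∈ F

/-- the lines over `K` of the surface -/
def Lines (a : Arr K) : Set (Submodule K (Fin 4 → K)) :=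
  {W | Module.finrank K W = 2 ∧ ∀ p ∈ W, cub a p = 0}

/-- the line is defined over `F` -/
def DefinedOver (F : Subfield K) (W : Submodule K (Fin 4 → K)) : Prop :=
  ∃ u v, RatV F u ∧ RatV F v ∧ W = Submodule.span K {u, v}

/-- the surface is smooth -/
def Smooth (a : Arr K) : Prop := ∀ p, p ≠ 0 → cub a p = 0 → grad a p ≠ 0

/-- the surface has coefficients in `F`, is smooth, has exactly 27 lines over `K`, and all of them are
defined over `F` -/
def IsSplit (F : Subfield K) (a : Arr K) : Prop :=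
  (∀ i j k, a i j k ∈ F) ∧ Smooth a ∧ (Lines a).ncard = 27 ∧ ∀ W ∈ Lines a, DefinedOver F W

/-- the surface has the same tangent plane at `p` and at `p'` -/
def SamePlane (a : Arr K) (p p' : Fin 4 → K) : Prop := ∃ c : K, c ≠ 0 ∧ grad a p' = c • grad a p

/-- `p` is a fixed point of Segre's involution of the line `W`: there is no other point of the line
with the same tangent plane -/
def FixedPt (a : Arr K) (W : Submodule K (Fin 4 → K)) (p : Fin 4 → K) : Prop :=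
  p ∈ W ∧ p ≠ 0 ∧ ∀ p' ∈ W, p' ≠ 0 → SamePlane a p p' → ∃ c : K, p' = c • p

/-- two different fixed points are rational over `F` -/
def Hyperbolic (F : Subfield K) (a : Arr K) (W : Submodule K (Fin 4 → K)) : Prop :=
  ∃ u v, RatV F u ∧ RatV F v ∧ FixedPt a W u ∧ FixedPt a W v ∧ ∀ c : K, v ≠ c • u

/-- no fixed point is rational over `F` -/
def Elliptic (F : Subfield K) (a : Arr K) (W : Submodule K (Fin 4 → K)) : Prop :=
  ∀ u, RatV F u → ¬ FixedPt a W u

/-- the number of hyperbolic lines -/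
noncomputable def numH (F : Subfield K) (a : Arr K) : ℕ := {W | W ∈ Lines a ∧ Hyperbolic F a W}.ncard

/-- the number of elliptic lines -/
noncomputable def numE (F : Subfield K) (a : Arr K) : ℕ := {W | W ∈ Lines a ∧ Elliptic F a W}.ncard

/-! ### auxiliary definitions -/

/-- a square of an element of `F` -/
def SqF (F : Subfield K) (z : K) : Prop := ∃ r ∈ F, r * r = z

/-- scalar product -/
def dot (u v : Fin 4 → K) : K := ∑ i, u i * v i

/-- the surface `b` is the surface `a` in other coordinates, defined over `F` -/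
def Rel (F : Subfield K) (a b : Arr K) : Prop :=
  ∃ g : (Fin 4 → K) ≃ₗ[K] (Fin 4 → K), (∀ x, RatV F x ↔ RatV F (g x)) ∧ ∀ x, cub b x = cub a (g x)

/-- resultant of `p0 X² + p1 X Y + p2 Y²` and `r0 X² + r1 X Y + r2 Y²` -/
def res2 (p0 p1 p2 r0 r1 r2 : K) : K :=
  (p0 * r2 - p2 * r0) ^ 2 - (p0 * r1 - p1 * r0) * (p1 * r2 - p2 * r1)

/-- The normal form `z s² - w t² + 2 β w² s + 2 γ z² t + g3 z³ + g2 z² w + g1 z w² + g0 w³` in the
coordinates `(s, t, z, w)`. -/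
def arrN (β γ g3 g2 g1 g0 : K) : Arr K :=
  ![0, 0, ![![1, 0, 0, 0], 0, ![0, 2 * γ, g3, g2], ![0, 0, 0, g1]],
    ![0, ![0, -1, 0, 0], 0, ![2 * β, 0, 0, g0]]]

/-- The coefficients of `∏ (d_i X + c_i Y)`: `pc c d k` is the coefficient of `X ^ (5 - k) Y ^ k`. -/
def pc (c d : Fin 5 → K) : Fin 6 → K :=
  ![d 0 * d 1 * d 2 * d 3 * d 4,
    c 0 * d 1 * d 2 * d 3 * d 4 + d 0 * c 1 * d 2 * d 3 * d 4 + d 0 * d 1 * c 2 * d 3 * d 4 + d 0 * d 1 * d 2 * c 3 * d 4 + d 0 * d 1 * d 2 * d 3 * c 4,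
    c 0 * c 1 * d 2 * d 3 * d 4 + c 0 * d 1 * c 2 * d 3 * d 4 + c 0 * d 1 * d 2 * c 3 * d 4 + c 0 * d 1 * d 2 * d 3 * c 4 + d 0 * c 1 * c 2 * d 3 * d 4 + d 0 * c 1 * d 2 * c 3 * d 4 + d 0 * c 1 * d 2 * d 3 * c 4 + d 0 * d 1 * c 2 * c 3 * d 4 + d 0 * d 1 * c 2 * d 3 * c 4 + d 0 * d 1 * d 2 * c 3 * c 4,
    c 0 * c 1 * c 2 * d 3 * d 4 + c 0 * c 1 * d 2 * c 3 * d 4 + c 0 * c 1 * d 2 * d 3 * c 4 + c 0 * d 1 * c 2 * c 3 * d 4 + c 0 * d 1 * c 2 * d 3 * c 4 + c 0 * d 1 * d 2 * c 3 * c 4 + d 0 * c 1 * c 2 * c 3 * d 4 + d 0 * c 1 * c 2 * d 3 * c 4 + d 0 * c 1 * d 2 * c 3 * c 4 + d 0 * d 1 * c 2 * c 3 * c 4,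
    c 0 * c 1 * c 2 * c 3 * d 4 + c 0 * c 1 * c 2 * d 3 * c 4 + c 0 * c 1 * d 2 * c 3 * c 4 + c 0 * d 1 * c 2 * c 3 * c 4 + d 0 * c 1 * c 2 * c 3 * c 4,
    c 0 * c 1 * c 2 * c 3 * c 4]

/-- the product of the five numbers -/
def pr (x : Fin 5 → K) : K := x 0 * x 1 * x 2 * x 3 * x 4

/-- the surface `S(x, y)` -/
def arrS (x y : Fin 5 → K) : Arr K :=
  arrN (pr x) (-pr y) (-pc (x ^ 2) (y ^ 2) 1) (pc (x ^ 2) (y ^ 2) 2) (-pc (x ^ 2) (y ^ 2) 3)
    (pc (x ^ 2) (y ^ 2) 4)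

/-- the five points `(x_i² : y_i²)` are different -/
def ND (x y : Fin 5 → K) : Prop := ∀ i j, i ≠ j → x i ^ 2 * y j ^ 2 ≠ x j ^ 2 * y i ^ 2

/-- the line `z = w = 0` -/
def ell : Submodule K (Fin 4 → K) := Submodule.span K {![1, 0, 0, 0], ![0, 1, 0, 0]}

/-- product of the `x j`, `j ≠ i` -/
def others (x : Fin 5 → K) (i : Fin 5) : K := ∏ j ∈ univ.erase i, x j

/-- the two lines (`e = 1` and `e = -1`) in the plane `(z : w) = (x_i² : y_i²)` -/
def lineL (x y : Fin 5 → K) (i : Fin 5) (e : K) : Submodule K (Fin 4 → K) :=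
  Submodule.span K {![y i, -e * x i, 0, 0],
    ![-e * others y i * x i ^ 3, -e * others x i * y i ^ 3, x i ^ 2, y i ^ 2]}

/-- the line `s = c1 z + c3 w`, `t = c2 z + c4 w` -/
def lineM (c y : Fin 5 → K) : Submodule K (Fin 4 → K) :=
  Submodule.span K {![pc c y 1, pc c y 2, 1, 0], ![pc c y 3, pc c y 4, 0, 1]}

/-- the type of `lineL x y i e`: a square if and only if it is hyperbolic -/
def DD (x y : Fin 5 → K) (i : Fin 5) : K := ∏ j ∈ univ.erase i, (x i ^ 2 * y j ^ 2 - x j ^ 2 * y i ^ 2)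

/-- the type of `lineM c y` -/
def RR (c y : Fin 5 → K) : K :=
  -((c 0 * y 1 + c 1 * y 0) * (c 0 * y 2 + c 2 * y 0) * (c 0 * y 3 + c 3 * y 0) *
    (c 0 * y 4 + c 4 * y 0) * (c 1 * y 2 + c 2 * y 1) * (c 1 * y 3 + c 3 * y 1) *
    (c 1 * y 4 + c 4 * y 1) * (c 2 * y 3 + c 3 * y 2) * (c 2 * y 4 + c 4 * y 2) *
    (c 3 * y 4 + c 4 * y 3))

/-- a choice of signs with product one -/
abbrev Sg : Type := {s : Fin 5 → ℤˣ // ∏ i, s i = 1}

/-- `x` with the signs `s` -/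
def sg (s : Fin 5 → ℤˣ) (x : Fin 5 → K) : Fin 5 → K := fun i => ((s i : ℤ) : K) * x i

end

end Pool.Agent.Q52.HE
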