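import Pool.Agent.Q52.HE.Lin

/-!
# Hyperbolic and elliptic lines: the pencil of a line, triangles
-/

namespace Pool.Agent.Q52.HE

open Finset

section
variable {K : Type} [Field K]

lemma quad_zero [IsAlgClosed K] (h2 : (2 : K) ≠ 0) (p0 p1 p2 : K) :
    ∃ x y : K, (x ≠ 0 ∨ y ≠ 0) ∧ p0 * x ^ 2 + p1 * (x * y) + p2 * y ^ 2 = 0 := by
  by_cases h : p0 = 0
  · exact ⟨1, 0, Or.inl one_ne_zero, by rw [h]; ring⟩
  · obtain ⟨s, hs⟩ := IsAlgClosed.exists_pow_nat_eq (p1 ^ 2 - 4 * p0 * p2) (n := 2) two_pos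
    refine ⟨-p1 + s, 2 * p0, Or.inr (mul_ne_zero h2 h), ?_⟩
    linear_combination p0 * hs

lemma res_zero [IsAlgClosed K] (h2 : (2 : K) ≠ 0) {p0 p1 p2 r0 r1 r2 : K}
    (h : res2 p0 p1 p2 r0 r1 r2 = 0) :
    ∃ x y : K, (x ≠ 0 ∨ y ≠ 0) ∧ p0 * x ^ 2 + p1 * (x * y) + p2 * y ^ 2 = 0 ∧
      r0 * x ^ 2 + r1 * (x * y) + r2 * y ^ 2 = 0 := by
  obtain ⟨A, hA⟩ : ∃ A, A = p0 * r1 - p1 * r0 := ⟨_, rfl⟩
  obtain ⟨B, hB⟩ : ∃ B, B = p0 * r2 - p2 * r0 := ⟨_, rfl⟩
  obtain ⟨C, hC⟩ : ∃ C, C = p1 * r2 - p2 * r1 := ⟨_, rfl⟩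
  have hres : B ^ 2 - A * C = 0 := by rw [hA, hB, hC]; exact h
  obtain ⟨N1, hN1⟩ : ∃ N : K → K → K, ∀ x y, N x y = p0 * x ^ 2 + p1 * (x * y) + p2 * y ^ 2 :=
    ⟨_, fun _ _ => rfl⟩
  obtain ⟨N2, hN2⟩ : ∃ N : K → K → K, ∀ x y, N x y = r0 * x ^ 2 + r1 * (x * y) + r2 * y ^ 2 :=
    ⟨_, fun _ _ => rfl⟩
  have hcross : ∀ x y x' y' : K, N1 x y * N2 x' y' - N2 x y * N1 x' y' =
      (x * y' - x' * y) * ((A * x + B * y) * x' + (B * x + C * y) * y') := by
    intro x y x' y'
    rw [hN1, hN1, hN2, hN2, hA, hB, hC]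
    ring
  have hk : ∃ x y : K, (x ≠ 0 ∨ y ≠ 0) ∧ A * x + B * y = 0 ∧ B * x + C * y = 0 := by
    by_cases h0 : A = 0
    · refine ⟨1, 0, Or.inl one_ne_zero, by rw [h0]; ring, ?_⟩
      have : B = 0 := by
        have : B ^ 2 = 0 := by rw [h0] at hres; linear_combination hres
        exact pow_eq_zero_iff (two_ne_zero) |>.1 this
      rw [this]
      ring
    · exact ⟨-B, A, Or.inr h0, by ring, by linear_combination -hres⟩
  obtain ⟨x, y, hxy, e1, e2⟩ := hk
  have hpar : ∀ x' y', N1 x y * N2 x' y' = N2 x y * N1 x' y' := by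
    intro x' y'
    have := hcross x y x' y'
    rw [e1, e2] at this
    linear_combination this
  by_cases c1 : N1 x y = 0
  · by_cases c2 : N2 x y = 0
    · exact ⟨x, y, hxy, by rw [← hN1]; exact c1, by rw [← hN2]; exact c2⟩
    · obtain ⟨x', y', h', hz⟩ := quad_zero h2 r0 r1 r2
      refine ⟨x', y', h', ?_, hz⟩
      have := hpar x' y'
      rw [c1, zero_mul] at this
      rw [← hN1]
      exact (mul_eq_zero.1 this.symm).resolve_left c2
  · obtain ⟨x', y', h', hz⟩ := quad_zero h2 p0 p1 p2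
    refine ⟨x', y', h', hz, ?_⟩
    have := hpar x' y'
    rw [hN1 x' y', hz, mul_zero] at this
    rw [← hN2]
    exact (mul_eq_zero.1 this).resolve_left c1

lemma comb_ne {u v : Fin 4 → K} (h : LinearIndependent K ![u, v]) {x y : K} (hxy : x ≠ 0 ∨ y ≠ 0) :
    x • u + y • v ≠ 0 := by
  intro hc
  have := comb_inj h (x := x) (y := y) (x' := 0) (y' := 0) (by rw [hc]; simp)
  rcases hxy with h | h
  · exact h this.1
  · exact h this.2

lemma smooth_res [IsAlgClosed K] (h2 : (2 : K) ≠ 0) {a : Arr K} (hs : Smooth a)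
    {u v n1 n2 : Fin 4 → K} (h : LinearIndependent K ![u, v])
    (hl : ∀ p ∈ Submodule.span K {u, v}, cub a p = 0) {p0 p1 p2 r0 r1 r2 : K}
    (hg : ∀ α β : K, grad a (α • u + β • v) =
      (p0 * α ^ 2 + p1 * (α * β) + p2 * β ^ 2) • n1 +
      (r0 * α ^ 2 + r1 * (α * β) + r2 * β ^ 2) • n2) : res2 p0 p1 p2 r0 r1 r2 ≠ 0 := by
  intro h0
  obtain ⟨x, y, hxy, e1, e2⟩ := res_zero h2 h0
  refine hs (x • u + y • v) (comb_ne h hxy) (hl _ (Submodule.mem_span_pair.2 ⟨x, y, rfl⟩)) ?_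
  rw [hg, e1, e2, zero_smul, zero_smul, add_zero]

lemma dot_quad (a : Arr K) (u v c : Fin 4 → K) (α β : K) :
    dot (grad a (α • u + β • v)) c = dot (grad a u) c * α ^ 2 +
      (dot (grad a (u + v)) c - dot (grad a u) c - dot (grad a v) c) * (α * β) +
      dot (grad a v) c * β ^ 2 := by
  have h1 : dot (grad a (u + v) - grad a u - grad a v) c =
      dot (grad a (u + v)) c - dot (grad a u) c - dot (grad a v) c := by
    unfold dot
    simp [sub_mul, Finset.sum_sub_distrib]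
  rw [grad_quad, dot_add_left, dot_add_left, dot_smul, dot_smul, dot_smul, h1]
  ring

lemma add_rat {F : Subfield K} {u v : Fin 4 → K} (hu : RatV F u) (hv : RatV F v) :
    RatV F (u + v) := fun i => F.add_mem (hu i) (hv i)

end

/-- J8 -/
theorem grd : S_grad := by
  intro K _ _ F h2 a u v ha hs hu hv huv hW
  have hinf : Infinite K := IsAlgClosed.instInfinite
  obtain ⟨c, d, g, hc, hd, g1, g2⟩ := frame2 hu hv huv
  obtain ⟨n, n1, n2, n3, n4⟩ := dual_frame g1 g2
  have gu := grad_rat ha hu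
  have gv := grad_rat ha hv
  have guv := grad_rat ha (add_rat hu hv)
  have key : ∀ α β : K, grad a (α • u + β • v) =
      (dot (grad a u) c * α ^ 2 + (dot (grad a (u + v)) c - dot (grad a u) c -
        dot (grad a v) c) * (α * β) + dot (grad a v) c * β ^ 2) • n 2 +
      (dot (grad a u) d * α ^ 2 + (dot (grad a (u + v)) d - dot (grad a u) d -
        dot (grad a v) d) * (α * β) + dot (grad a v) d * β ^ 2) • n 3 := by
    intro α β
    have hp : α • u + β • v ∈ Submodule.span K {u, v} := Submodule.mem_span_pair.2 ⟨α, β, rfl⟩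
    have hu' : u ∈ Submodule.span K {u, v} := Submodule.subset_span (by simp)
    have hv' : v ∈ Submodule.span K {u, v} := Submodule.subset_span (by simp)
    have e1 : dot (grad a (α • u + β • v)) u = 0 := grad_line hW.2 hp hu'
    have e2 : dot (grad a (α • u + β • v)) v = 0 := grad_line hW.2 hp hv'
    have := n4 (grad a (α • u + β • v))
    rw [Fin.sum_univ_four] at this
    simp only [Matrix.cons_val_zero, Matrix.cons_val_one, Matrix.cons_val] at this
    rw [e1, e2, zero_smul, zero_smul, zero_add, zero_add, dot_quad, dot_quad] at this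
    exact this
  have hn : LinearIndependent K ![n 2, n 3] := by
    have h3 := n2.comp ![(2 : Fin 4), 3] (by decide)
    convert h3 using 1
    funext i
    fin_cases i <;> rfl
  refine ⟨n 2, n 3, _, _, _, _, _, _, n1 2, n1 3, hn, ?_, ?_, ?_, ?_, ?_, ?_, key,
    smooth_res h2 hs huv hW.2 key⟩
  · exact dot_rat gu hc
  · exact F.sub_mem (F.sub_mem (dot_rat guv hc) (dot_rat gu hc)) (dot_rat gv hc)
  · exact dot_rat gv hc
  · exact dot_rat gu hd
  · exact F.sub_mem (F.sub_mem (dot_rat guv hd) (dot_rat gu hd)) (dot_rat gv hd)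
  · exact dot_rat gv hd

section
variable {K : Type} [Field K]

/-- one side of a triangle -/
lemma side [IsAlgClosed K] (h : S_pencil) (h2 : (2 : K) ≠ 0) (F : Subfield K) {a : Arr K}
    (ha : ∀ i j k, a i j k ∈ F) (hs : Smooth a) {e1 e2 e3 e4 n1 n4 : Fin 4 → K}
    (r1 : RatV F e1) (r2 : RatV F e2) (r3 : RatV F e3) (r4 : RatV F e4)
    (h23 : LinearIndependent K ![e2, e3]) (hn : LinearIndependent K ![n1, n4])
    (l1 : Submodule.span K {e2, e3} ∈ Lines a) (l2 : Submodule.span K {e1, e3} ∈ Lines a)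
    (l3 : Submodule.span K {e1, e2} ∈ Lines a)
    (hd : ∀ p ∈ Submodule.span K {e2, e3}, grad a p = dot (grad a p) e1 • n1 +
      dot (grad a p) e4 • n4)
    (hsq : SqF F (dot (grad a e2) e4 * dot (grad a e3) e4)) :
    Hyperbolic F a (Submodule.span K {e2, e3}) := by
  have hinf : Infinite K := IsAlgClosed.instInfinite
  have z2 : dot (grad a e2) e1 = 0 := grad_line l3.2 (Submodule.subset_span (by simp))
    (Submodule.subset_span (by simp))
  have z3 : dot (grad a e3) e1 = 0 := grad_line l2.2 (Submodule.subset_span (by simp))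
    (Submodule.subset_span (by simp))
  have g2 := grad_rat ha r2
  have g3 := grad_rat ha r3
  have g23 := grad_rat ha (add_rat r2 r3)
  have key : ∀ α β : K, grad a (α • e2 + β • e3) =
      (0 * α ^ 2 + dot (grad a (e2 + e3)) e1 * (α * β) + 0 * β ^ 2) • n1 +
      (dot (grad a e2) e4 * α ^ 2 + (dot (grad a (e2 + e3)) e4 - dot (grad a e2) e4 -
        dot (grad a e3) e4) * (α * β) + dot (grad a e3) e4 * β ^ 2) • n4 := by
    intro α β
    rw [hd _ (Submodule.mem_span_pair.2 ⟨α, β, rfl⟩), dot_quad, dot_quad, z2, z3, sub_zero, sub_zero]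
  have hres := smooth_res h2 hs h23 l1.2 key
  obtain ⟨hp, -⟩ := h K F h2 a e2 e3 n1 n4 _ _ _ _ _ _ r2 r3 h23 hn F.zero_mem (dot_rat g23 r1)
    F.zero_mem (dot_rat g2 r4)
    (F.sub_mem (F.sub_mem (dot_rat g23 r4) (dot_rat g2 r4)) (dot_rat g3 r4)) (dot_rat g3 r4)
    key hres
  rw [hp]
  obtain ⟨r, hr, hrr⟩ := hsq
  refine ⟨dot (grad a (e2 + e3)) e1 * r, F.mul_mem (dot_rat g23 r1) hr, ?_⟩
  unfold res2
  linear_combination dot (grad a (e2 + e3)) e1 ^ 2 * hrr

lemma sq_of_three (F : Subfield K) [Finite F] {q1 q2 q3 : K} (h1 : q1 ∈ F) (h2 : q2 ∈ F)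
    (h3 : q3 ∈ F) : SqF F (q2 * q3) ∨ SqF F (q1 * q3) ∨ SqF F (q1 * q2) := by
  classical
  letI : Fintype F := Fintype.ofFinite F
  have key : ∀ x y : F, IsSquare (x * y) → SqF F ((x : K) * (y : K)) := by
    rintro x y ⟨r, hr⟩
    refine ⟨r, r.2, ?_⟩
    have := congrArg (fun z : F => (z : K)) hr
    push_cast at this
    exact this.symm
  by_cases z1 : q1 = 0
  · right; left
    exact ⟨0, F.zero_mem, by rw [z1]; ring⟩
  by_cases z2 : q2 = 0
  · left
    exact ⟨0, F.zero_mem, by rw [z2]; ring⟩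
  by_cases z3 : q3 = 0
  · left
    exact ⟨0, F.zero_mem, by rw [z3]; ring⟩
  have hch : ∀ x : F, x ≠ 0 → quadraticChar F x = 1 ∨ quadraticChar F x = -1 :=
    fun x hx => quadraticChar_dichotomy hx
  have n1 : (⟨q1, h1⟩ : F) ≠ 0 := fun h => z1 (congrArg (fun z : F => (z : K)) h)
  have n2 : (⟨q2, h2⟩ : F) ≠ 0 := fun h => z2 (congrArg (fun z : F => (z : K)) h)
  have n3 : (⟨q3, h3⟩ : F) ≠ 0 := fun h => z3 (congrArg (fun z : F => (z : K)) h)
  have hprod : ∀ x y : F, x ≠ 0 → y ≠ 0 → quadraticChar F x = quadraticChar F y →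
      IsSquare (x * y) := by
    intro x y hx hy h
    rw [← quadraticChar_one_iff_isSquare (mul_ne_zero hx hy), map_mul, h]
    rcases hch y hy with h | h <;> rw [h] <;> rfl
  rcases hch _ n1 with c1 | c1 <;> rcases hch _ n2 with c2 | c2 <;> rcases hch _ n3 with c3 | c3
  · left; exact key _ _ (hprod _ _ n2 n3 (by rw [c2, c3]))
  · right; right; exact key _ _ (hprod _ _ n1 n2 (by rw [c1, c2]))
  · right; left; exact key _ _ (hprod _ _ n1 n3 (by rw [c1, c3]))
  · left; exact key _ _ (hprod _ _ n2 n3 (by rw [c2, c3]))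
  · left; exact key _ _ (hprod _ _ n2 n3 (by rw [c2, c3]))
  · right; left; exact key _ _ (hprod _ _ n1 n3 (by rw [c1, c3]))
  · right; right; exact key _ _ (hprod _ _ n1 n2 (by rw [c1, c2]))
  · left; exact key _ _ (hprod _ _ n2 n3 (by rw [c2, c3]))

end

lemma inj_pair {m : ℕ} {i j : Fin m} (h : i ≠ j) : Function.Injective ![i, j] := by
  intro x y hxy
  fin_cases x <;> fin_cases y
  · rfl
  · exact absurd hxy h
  · exact absurd hxy.symm h
  · rfl

/-- J12 -/
theorem hyp (h : S_pencil) : S_hyp := by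
  intro K _ _ F _ h2 a e1 e2 e3 ha hs r1 r2 r3 hli l1 l2 l3
  have hinf : Infinite K := IsAlgClosed.instInfinite
  obtain ⟨e4, g, r4, g1, g2⟩ := frame3 r1 r2 r3 hli
  obtain ⟨n, n1, n2, n3, n4⟩ := dual_frame g1 g2
  have hN : ∀ i j : Fin 4, i ≠ j → LinearIndependent K ![n i, n j] := by
    intro i j hij
    have h3 := n2.comp ![i, j] (inj_pair hij)
    convert h3 using 1
    funext k
    fin_cases k <;> rfl
  have hE : ∀ i j : Fin 3, i ≠ j → LinearIndependent K
      ![(![e1, e2, e3] : Fin 3 → Fin 4 → K) i, (![e1, e2, e3] : Fin 3 → Fin 4 → K) j] := by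
    intro i j hij
    have h3 := hli.comp ![i, j] (inj_pair hij)
    convert h3 using 1
    funext k
    fin_cases k <;> rfl
  have hexp : ∀ t : Fin 4 → K, t = dot t e1 • n 0 + dot t e2 • n 1 + dot t e3 • n 2 +
      dot t e4 • n 3 := by
    intro t
    have := n4 t
    rw [Fin.sum_univ_four] at this
    simpa using this
  have q : ∀ i, RatV F (grad a i) ∨ True := fun i => Or.inr trivial
  have p12 : Submodule.span K {e2, e1} = Submodule.span K {e1, e2} := by rw [Set.pair_comm]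
  have p13 : Submodule.span K {e3, e1} = Submodule.span K {e1, e3} := by rw [Set.pair_comm]
  have p23 : Submodule.span K {e3, e2} = Submodule.span K {e2, e3} := by rw [Set.pair_comm]
  rcases sq_of_three F (dot_rat (grad_rat ha r1) r4) (dot_rat (grad_rat ha r2) r4)
    (dot_rat (grad_rat ha r3) r4) with hsq | hsq | hsq
  · refine ⟨_, l1, side h h2 F ha hs r1 r2 r3 r4 (hE 1 2 (by decide)) (hN 0 3 (by decide))
      l1 l2 l3 (fun p hp => ?_) hsq⟩
    have z2 : dot (grad a p) e2 = 0 := grad_line l1.2 hp (Submodule.subset_span (by simp))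
    have z3 : dot (grad a p) e3 = 0 := grad_line l1.2 hp (Submodule.subset_span (by simp))
    have := hexp (grad a p)
    rw [z2, z3, zero_smul, zero_smul, add_zero, add_zero] at this
    exact this
  · refine ⟨_, l2, side h h2 F ha hs r2 r1 r3 r4 (hE 0 2 (by decide)) (hN 1 3 (by decide))
      l2 l1 (by rw [p12]; exact l3) (fun p hp => ?_) hsq⟩
    have z2 : dot (grad a p) e1 = 0 := grad_line l2.2 hp (Submodule.subset_span (by simp))
    have z3 : dot (grad a p) e3 = 0 := grad_line l2.2 hp (Submodule.subset_span (by simp))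
    have := hexp (grad a p)
    rw [z2, z3, zero_smul, zero_smul, add_zero, zero_add] at this
    exact this
  · refine ⟨_, l3, side h h2 F ha hs r3 r1 r2 r4 (hE 0 1 (by decide)) (hN 2 3 (by decide))
      l3 (by rw [p23]; exact l1) (by rw [p13]; exact l2) (fun p hp => ?_) hsq⟩
    have z2 : dot (grad a p) e1 = 0 := grad_line l3.2 hp (Submodule.subset_span (by simp))
    have z3 : dot (grad a p) e2 = 0 := grad_line l3.2 hp (Submodule.subset_span (by simp))
    have := hexp (grad a p)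
    rw [z2, z3, zero_smul, zero_smul, zero_add, zero_add] at this
    exact this

end Pool.Agent.Q52.HE
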