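import Pool.Agent.Q52.HE.Stm

/-!
# Hyperbolic and elliptic lines: type of a line from its pencil
-/

namespace Pool.Agent.Q52.HE

open Finset

section
variable {K : Type} [Field K]

lemma common_zero {p0 p1 p2 r0 r1 r2 x y : K} (hxy : x ≠ 0 ∨ y ≠ 0)
    (e1 : p0 * x ^ 2 + p1 * (x * y) + p2 * y ^ 2 = 0)
    (e2 : r0 * x ^ 2 + r1 * (x * y) + r2 * y ^ 2 = 0) : res2 p0 p1 p2 r0 r1 r2 = 0 := by
  unfold res2
  by_cases hx : x = 0
  · have hy : y ≠ 0 := by
      rcases hxy with h | h
      · exact absurd hx h
      · exact h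
    have a1 : p2 = 0 := by
      have : p2 * y ^ 2 = 0 := by rw [hx] at e1; linear_combination e1
      exact (mul_eq_zero.1 this).resolve_right (pow_ne_zero 2 hy)
    have a2 : r2 = 0 := by
      have : r2 * y ^ 2 = 0 := by rw [hx] at e2; linear_combination e2
      exact (mul_eq_zero.1 this).resolve_right (pow_ne_zero 2 hy)
    rw [a1, a2]
    ring
  by_cases hy : y = 0
  · have a1 : p0 = 0 := by
      have : p0 * x ^ 2 = 0 := by rw [hy] at e1; linear_combination e1
      exact (mul_eq_zero.1 this).resolve_right (pow_ne_zero 2 hx)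
    have a2 : r0 = 0 := by
      have : r0 * x ^ 2 = 0 := by rw [hy] at e2; linear_combination e2
      exact (mul_eq_zero.1 this).resolve_right (pow_ne_zero 2 hx)
    rw [a1, a2]
    ring
  have c1 : (p0 * r2 - p2 * r0) * x + (p1 * r2 - p2 * r1) * y = 0 := by
    have : x * ((p0 * r2 - p2 * r0) * x + (p1 * r2 - p2 * r1) * y) = 0 := by
      linear_combination r2 * e1 - p2 * e2
    exact (mul_eq_zero.1 this).resolve_left hx
  have c2 : (p0 * r1 - p1 * r0) * x + (p0 * r2 - p2 * r0) * y = 0 := by
    have : y * ((p0 * r1 - p1 * r0) * x + (p0 * r2 - p2 * r0) * y) = 0 := by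
      linear_combination p0 * e2 - r0 * e1
    exact (mul_eq_zero.1 this).resolve_left hy
  have : ((p0 * r2 - p2 * r0) ^ 2 - (p0 * r1 - p1 * r0) * (p1 * r2 - p2 * r1)) * x = 0 := by
    linear_combination (p0 * r2 - p2 * r0) * c1 - (p1 * r2 - p2 * r1) * c2
  exact (mul_eq_zero.1 this).resolve_right hx

lemma minor {u v : Fin 4 → K} (h : LinearIndependent K ![u, v]) :
    ∃ i j, u i * v j - u j * v i ≠ 0 := by
  by_contra hcon
  push Not at hcon
  have hu : u ≠ 0 := by
    have := h.ne_zero 0
    simpa using this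
  obtain ⟨i, hi⟩ : ∃ i, u i ≠ 0 := by
    by_contra hc
    push Not at hc
    exact hu (funext hc)
  rw [LinearIndependent.pair_iff] at h
  have := h (v i) (-(u i)) (by
    funext j
    simp only [Pi.add_apply, Pi.smul_apply, smul_eq_mul, Pi.zero_apply]
    have := hcon i j
    linear_combination -this)
  exact hi (neg_eq_zero.1 this.2)

lemma rat_coords {F : Subfield K} {u v : Fin 4 → K} (hu : RatV F u) (hv : RatV F v)
    (h : LinearIndependent K ![u, v]) {x y : K} (hp : RatV F (x • u + y • v)) : x ∈ F ∧ y ∈ F := by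
  obtain ⟨i, j, hij⟩ := minor h
  have hm : u i * v j - u j * v i ∈ F :=
    F.sub_mem (F.mul_mem (hu i) (hv j)) (F.mul_mem (hu j) (hv i))
  have hi := hp i
  have hj := hp j
  simp only [Pi.add_apply, Pi.smul_apply, smul_eq_mul] at hi hj
  constructor
  · have : x = ((x * u i + y * v i) * v j - (x * u j + y * v j) * v i) / (u i * v j - u j * v i) := by
      rw [eq_div_iff hij]
      ring
    rw [this]
    exact F.div_mem (F.sub_mem (F.mul_mem hi (hv j)) (F.mul_mem hj (hv i))) hm
  · have : y = ((x * u j + y * v j) * u i - (x * u i + y * v i) * u j) / (u i * v j - u j * v i) := by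
      rw [eq_div_iff hij]
      ring
    rw [this]
    exact F.div_mem (F.sub_mem (F.mul_mem hj (hu i)) (F.mul_mem hi (hu j))) hm

lemma comb_inj {u v : Fin 4 → K} (h : LinearIndependent K ![u, v]) {x y x' y' : K}
    (e : x • u + y • v = x' • u + y' • v) : x = x' ∧ y = y' := by
  rw [LinearIndependent.pair_iff] at h
  have := h (x - x') (y - y') (by
    rw [sub_smul, sub_smul]
    have := sub_eq_zero.2 e
    rw [← this]
    abel)
  exact ⟨sub_eq_zero.1 this.1, sub_eq_zero.1 this.2⟩

end

/-- J1 -/
theorem pencil : S_pencil := by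
  intro K _ F h2 a u v n1 n2 p0 p1 p2 r0 r1 r2 hu hv huv hn h0 h1 h2' k0 k1 k2 hg hres
  obtain ⟨A, hA⟩ : ∃ A, A = p0 * r1 - p1 * r0 := ⟨_, rfl⟩
  obtain ⟨B, hB⟩ : ∃ B, B = p0 * r2 - p2 * r0 := ⟨_, rfl⟩
  obtain ⟨C, hC⟩ : ∃ C, C = p1 * r2 - p2 * r1 := ⟨_, rfl⟩
  have hresd : res2 p0 p1 p2 r0 r1 r2 = B ^ 2 - A * C := by rw [hA, hB, hC]; rfl
  have hAF : A ∈ F := by rw [hA]; exact F.sub_mem (F.mul_mem h0 k1) (F.mul_mem h1 k0)
  have hBF : B ∈ F := by rw [hB]; exact F.sub_mem (F.mul_mem h0 k2) (F.mul_mem h2' k0)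
  have hCF : C ∈ F := by rw [hC]; exact F.sub_mem (F.mul_mem h1 k2) (F.mul_mem h2' k1)
  obtain ⟨N1, hN1⟩ : ∃ N : K → K → K, ∀ x y, N x y = p0 * x ^ 2 + p1 * (x * y) + p2 * y ^ 2 :=
    ⟨_, fun _ _ => rfl⟩
  obtain ⟨N2, hN2⟩ : ∃ N : K → K → K, ∀ x y, N x y = r0 * x ^ 2 + r1 * (x * y) + r2 * y ^ 2 :=
    ⟨_, fun _ _ => rfl⟩
  have hg' : ∀ x y, grad a (x • u + y • v) = N1 x y • n1 + N2 x y • n2 := by
    intro x y
    rw [hN1, hN2]
    exact hg x y
  have hne : ∀ x y : K, (x ≠ 0 ∨ y ≠ 0) → N1 x y ≠ 0 ∨ N2 x y ≠ 0 := by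
    intro x y hxy
    by_contra hcon
    push Not at hcon
    exact hres (common_zero hxy (by rw [← hN1]; exact hcon.1) (by rw [← hN2]; exact hcon.2))
  have hcross : ∀ x y x' y' : K, N1 x y * N2 x' y' - N2 x y * N1 x' y' =
      (x * y' - x' * y) * ((A * x + B * y) * x' + (B * x + C * y) * y') := by
    intro x y x' y'
    rw [hN1, hN1, hN2, hN2, hA, hB, hC]
    ring
  have hnz : ∀ x y : K, x • u + y • v ≠ 0 ↔ (x ≠ 0 ∨ y ≠ 0) := by
    intro x y
    constructor
    · intro h
      by_contra hcon
      push Not at hcon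
      apply h
      rw [hcon.1, hcon.2]
      simp
    · intro h hc
      have := comb_inj huv (x := x) (y := y) (x' := 0) (y' := 0) (by rw [hc]; simp)
      rcases h with h | h
      · exact h this.1
      · exact h this.2
  have hsame : ∀ x y x' y' : K, (x ≠ 0 ∨ y ≠ 0) → (x' ≠ 0 ∨ y' ≠ 0) →
      (SamePlane a (x • u + y • v) (x' • u + y' • v) ↔ N1 x y * N2 x' y' - N2 x y * N1 x' y' = 0) := by
    intro x y x' y' h1 h2
    constructor
    · rintro ⟨c, hc, h⟩
      rw [hg', hg', smul_add, smul_smul, smul_smul] at h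
      have := comb_inj hn h
      rw [this.1, this.2]
      ring
    · intro h
      rcases hne x y h1 with h3 | h3
      · have e2 : N2 x' y' = N1 x' y' / N1 x y * N2 x y := by
          field_simp
          linear_combination h
        refine ⟨N1 x' y' / N1 x y, ?_, ?_⟩
        · intro h4
          have h5 : N1 x' y' = 0 := by
            rcases div_eq_zero_iff.1 h4 with h | h
            · exact h
            · exact absurd h h3
          rcases hne x' y' h2 with h6 | h6
          · exact h6 h5
          · apply h6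
            rw [e2, h5]
            simp
        · rw [hg', hg', smul_add, smul_smul, smul_smul, ← e2, div_mul_cancel₀ _ h3]
      · have e2 : N1 x' y' = N2 x' y' / N2 x y * N1 x y := by
          field_simp
          linear_combination -h
        refine ⟨N2 x' y' / N2 x y, ?_, ?_⟩
        · intro h4
          have h5 : N2 x' y' = 0 := by
            rcases div_eq_zero_iff.1 h4 with h | h
            · exact h
            · exact absurd h h3
          rcases hne x' y' h2 with h6 | h6
          · apply h6
            rw [e2, h5]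
            simp
          · exact h6 h5
        · rw [hg', hg', smul_add, smul_smul, smul_smul, ← e2, div_mul_cancel₀ _ h3]
  have hmem : ∀ p, p ∈ Submodule.span K {u, v} ↔ ∃ x y : K, x • u + y • v = p := by
    intro p
    exact Submodule.mem_span_pair
  have hfix : ∀ x y : K, (x ≠ 0 ∨ y ≠ 0) →
      (FixedPt a (Submodule.span K {u, v}) (x • u + y • v) ↔
        (A * x + B * y) * x + (B * x + C * y) * y = 0) := by
    intro x y hxy
    constructor
    · rintro ⟨-, -, h⟩
      by_contra hJ
      have hcr : x * (A * x + B * y) - -(B * x + C * y) * y ≠ 0 := by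
        intro h5
        apply hJ
        linear_combination h5
      have h6 : (-(B * x + C * y)) ≠ 0 ∨ (A * x + B * y) ≠ 0 := by
        by_contra hcon
        push Not at hcon
        apply hcr
        rw [hcon.1, hcon.2]
        ring
      obtain ⟨c, hc⟩ := h ((-(B * x + C * y)) • u + (A * x + B * y) • v)
        ((hmem _).2 ⟨_, _, rfl⟩) ((hnz _ _).2 h6) ((hsame _ _ _ _ hxy h6).2 (by
          rw [hcross]; ring))
      rw [smul_add, smul_smul, smul_smul] at hc
      have := comb_inj huv hc
      apply hcr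
      rw [this.1, this.2]
      ring
    · intro hJ
      refine ⟨(hmem _).2 ⟨_, _, rfl⟩, (hnz _ _).2 hxy, ?_⟩
      intro p' hp' hp'0 hs
      obtain ⟨x', y', rfl⟩ := (hmem _).1 hp'
      have h' := (hnz _ _).1 hp'0
      have h3 := (hsame _ _ _ _ hxy h').1 hs
      rw [hcross] at h3
      have h4 : x * y' - x' * y = 0 := by
        by_contra hcr
        have h5 := (mul_eq_zero.1 h3).resolve_left hcr
        have a1 : A * x + B * y = 0 := by
          have : (A * x + B * y) * (x * y' - x' * y) = 0 := by
            linear_combination y' * hJ - y * h5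
          exact (mul_eq_zero.1 this).resolve_right hcr
        have a2 : B * x + C * y = 0 := by
          have : (B * x + C * y) * (x * y' - x' * y) = 0 := by
            linear_combination x * h5 - x' * hJ
          exact (mul_eq_zero.1 this).resolve_right hcr
        apply hres
        rw [hresd]
        rcases hxy with h | h
        · have : (B ^ 2 - A * C) * x = 0 := by linear_combination B * a2 - C * a1
          exact (mul_eq_zero.1 this).resolve_right h
        · have : (B ^ 2 - A * C) * y = 0 := by linear_combination B * a1 - A * a2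
          exact (mul_eq_zero.1 this).resolve_right h
      rcases hxy with h | h
      · refine ⟨x' / x, ?_⟩
        rw [smul_add, smul_smul, smul_smul, div_mul_cancel₀ _ h]
        congr 2
        field_simp
        linear_combination h4
      · refine ⟨y' / y, ?_⟩
        rw [smul_add, smul_smul, smul_smul, div_mul_cancel₀ _ h]
        congr 2
        field_simp
        linear_combination -h4
  have hratsq : ∀ p, RatV F p → FixedPt a (Submodule.span K {u, v}) p →
      SqF F (res2 p0 p1 p2 r0 r1 r2) := by
    intro p hp hf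
    obtain ⟨x, y, rfl⟩ := (hmem _).1 hf.1
    have hxy := (hnz _ _).1 hf.2.1
    obtain ⟨hx, hy⟩ := rat_coords hu hv huv hp
    have hJ := (hfix _ _ hxy).1 hf
    rw [hresd]
    by_cases hy0 : y = 0
    · have hx0 : x ≠ 0 := by
        rcases hxy with h | h
        · exact h
        · exact absurd hy0 h
      have hA0 : A = 0 := by
        have : A * x ^ 2 = 0 := by
          rw [hy0] at hJ
          linear_combination hJ
        exact (mul_eq_zero.1 this).resolve_right (pow_ne_zero 2 hx0)
      exact ⟨B, hBF, by rw [hA0]; ring⟩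
    · refine ⟨(A * x + B * y) / y, F.div_mem (F.add_mem (F.mul_mem hAF hx) (F.mul_mem hBF hy)) hy, ?_⟩
      field_simp
      linear_combination A * hJ
  have hsqrat : SqF F (res2 p0 p1 p2 r0 r1 r2) →
      Hyperbolic F a (Submodule.span K {u, v}) := by
    rintro ⟨r, hr, hrr⟩
    rw [hresd] at hrr
    have hr0 : r ≠ 0 := by
      rintro rfl
      apply hres
      rw [hresd, ← hrr]
      ring
    have hrat : ∀ x y : K, x ∈ F → y ∈ F → RatV F (x • u + y • v) := by
      intro x y hx hy i
      simp only [Pi.add_apply, Pi.smul_apply, smul_eq_mul]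
      exact F.add_mem (F.mul_mem hx (hu i)) (F.mul_mem hy (hv i))
    have hprop : ∀ x y x' y' : K, x * y' - x' * y ≠ 0 →
        ∀ c : K, x' • u + y' • v ≠ c • (x • u + y • v) := by
      intro x y x' y' h c hc
      rw [smul_add, smul_smul, smul_smul] at hc
      have := comb_inj huv hc
      apply h
      rw [this.1, this.2]
      ring
    by_cases hA0 : A = 0
    · have hB0 : B ≠ 0 := by
        rintro h
        apply hr0
        rw [hA0, h] at hrr
        have : r * r = 0 := by rw [hrr]; ring
        exact mul_self_eq_zero.1 this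
      refine ⟨(1 : K) • u + (0 : K) • v, (-C) • u + (2 * B) • v, hrat _ _ F.one_mem F.zero_mem,
        hrat _ _ (F.neg_mem hCF) (F.mul_mem ?_ hBF), (hfix _ _ (Or.inl one_ne_zero)).2 ?_,
        (hfix _ _ (Or.inr (mul_ne_zero h2 hB0))).2 ?_, hprop _ _ _ _ ?_⟩
      · have := F.add_mem F.one_mem F.one_mem
        rwa [one_add_one_eq_two] at this
      · rw [hA0]; ring
      · rw [hA0]; ring
      · rw [one_mul, mul_zero, sub_zero]
        exact mul_ne_zero h2 hB0
    · refine ⟨(-B + r) • u + A • v, (-B - r) • u + A • v,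
        hrat _ _ (F.add_mem (F.neg_mem hBF) hr) hAF,
        hrat _ _ (F.sub_mem (F.neg_mem hBF) hr) hAF, (hfix _ _ (Or.inr hA0)).2 ?_,
        (hfix _ _ (Or.inr hA0)).2 ?_, hprop _ _ _ _ ?_⟩
      · linear_combination A * hrr
      · linear_combination A * hrr
      · intro h
        have : 2 * r * A = 0 := by linear_combination h
        rcases mul_eq_zero.1 this with h3 | h3
        · rcases mul_eq_zero.1 h3 with h4 | h4
          · exact h2 h4
          · exact hr0 h4
        · exact hA0 h3
  refine ⟨⟨?_, hsqrat⟩, ⟨?_, ?_⟩⟩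
  · rintro ⟨p, -, hp, -, hf, -⟩
    exact hratsq p hp hf
  · intro h hs
    obtain ⟨p, -, hp, -, hf, -⟩ := hsqrat hs
    exact h p hp hf
  · intro h p hp hf
    exact h (hratsq p hp hf)

end Pool.Agent.Q52.HE
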