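import Pool.Agent.Q52.HE.Relat
import Pool.Agent.Q52.HE.Pencil

/-!
# Hyperbolic and elliptic lines: rational frames
-/

namespace Pool.Agent.Q52.HE

open Finset

section
variable {K : Type} [Field K]

/-- the vector with coordinates in `K` -/
def up {F : Subfield K} (u : Fin 4 → F) : Fin 4 → K := fun i => (u i : K)

lemma up_rat {F : Subfield K} (u : Fin 4 → F) : RatV F (up u) := fun i => (u i).2

lemma exists_up {F : Subfield K} {u : Fin 4 → K} (h : RatV F u) : ∃ u' : Fin 4 → F, up u' = u :=
  ⟨fun i => ⟨u i, h i⟩, rfl⟩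

lemma det_ne {F : Subfield K} (e : Fin 4 → Fin 4 → F) (h : LinearIndependent F e) :
    (Matrix.of e).det ≠ 0 := by
  have := (Matrix.linearIndependent_rows_iff_isUnit (A := Matrix.of e)).1 h
  rw [Matrix.isUnit_iff_isUnit_det] at this
  exact this.ne_zero

/-- a rational frame with its rational equivalence -/
lemma frame_up {F : Subfield K} (e : Fin 4 → Fin 4 → F) (h : (Matrix.of e).det ≠ 0) :
    ∃ g : (Fin 4 → K) ≃ₗ[K] (Fin 4 → K), (∀ x, RatV F x ↔ RatV F (g x)) ∧
      ∀ x, g x = ∑ i, x i • up (e i) := by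
  set M : Matrix (Fin 4) (Fin 4) F := Matrix.of e with hM
  set M1 : Matrix (Fin 4) (Fin 4) K := M.map (fun z => (z : K)) with hM1
  set N1 : Matrix (Fin 4) (Fin 4) K := (M⁻¹).map (fun z => (z : K)) with hN1
  have hu : IsUnit M.det := isUnit_iff_ne_zero.2 h
  have a1 : M1 * N1 = 1 := by
    rw [hM1, hN1]
    have := congrArg (fun A : Matrix (Fin 4) (Fin 4) F => A.map (F.subtype)) (M.mul_nonsing_inv hu)
    simp only [Matrix.map_mul] at this
    have h1 : (1 : Matrix (Fin 4) (Fin 4) F).map F.subtype = 1 :=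
      Matrix.map_one F.subtype (map_zero _) (map_one _)
    rw [h1] at this
    exact this
  have a2 : N1 * M1 = 1 := by
    rw [hM1, hN1]
    have := congrArg (fun A : Matrix (Fin 4) (Fin 4) F => A.map (F.subtype)) (M.nonsing_inv_mul hu)
    simp only [Matrix.map_mul] at this
    have h1 : (1 : Matrix (Fin 4) (Fin 4) F).map F.subtype = 1 :=
      Matrix.map_one F.subtype (map_zero _) (map_one _)
    rw [h1] at this
    exact this
  have hrat : ∀ (A : Matrix (Fin 4) (Fin 4) F) (x : Fin 4 → K), RatV F x →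
      RatV F (Matrix.vecMul x (A.map (fun z => (z : K)))) := by
    intro A x hx i
    rw [Matrix.vecMul, dotProduct]
    exact F.sum_mem fun j _ => F.mul_mem (hx j) (A j i).2
  let g : (Fin 4 → K) ≃ₗ[K] (Fin 4 → K) :=
    { toFun := fun x => Matrix.vecMul x M1
      invFun := fun x => Matrix.vecMul x N1
      map_add' := fun x y => Matrix.add_vecMul _ _ _
      map_smul' := fun c x => Matrix.smul_vecMul _ _ _
      left_inv := fun x => by
        change Matrix.vecMul (Matrix.vecMul x M1) N1 = x
        rw [Matrix.vecMul_vecMul, a1, Matrix.vecMul_one]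
      right_inv := fun x => by
        change Matrix.vecMul (Matrix.vecMul x N1) M1 = x
        rw [Matrix.vecMul_vecMul, a2, Matrix.vecMul_one] }
  refine ⟨g, fun x => ⟨fun hx => hrat _ _ hx, fun hx => ?_⟩, fun x => ?_⟩
  · have := hrat M⁻¹ _ hx
    have h2 : Matrix.vecMul (g x) (M⁻¹.map (fun z => (z : K))) = x := g.left_inv x
    rwa [h2] at this
  · funext j
    change Matrix.vecMul x M1 j = _
    rw [Matrix.vecMul, dotProduct, Finset.sum_apply]
    rfl

lemma dot_add_right (u v w : Fin 4 → K) : dot u (v + w) = dot u v + dot u w := by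
  unfold dot
  simp [mul_add, Finset.sum_add_distrib]

lemma dot_smul_right (c : K) (u v : Fin 4 → K) : dot u (c • v) = c * dot u v := by
  unfold dot
  rw [Finset.mul_sum]
  refine sum_congr rfl fun i _ => ?_
  simp only [Pi.smul_apply, smul_eq_mul]
  ring

lemma dot_add_left (u v w : Fin 4 → K) : dot (u + v) w = dot u w + dot v w := by
  unfold dot
  simp [add_mul, Finset.sum_add_distrib]

lemma dot_sum_right {ι : Type} (s : Finset ι) (u : Fin 4 → K) (f : ι → Fin 4 → K) :
    dot u (∑ i ∈ s, f i) = ∑ i ∈ s, dot u (f i) := by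
  classical
  induction s using Finset.induction_on with
  | empty => simp [dot]
  | insert i s hi ih => rw [sum_insert hi, sum_insert hi, dot_add_right, ih]

lemma dot_sum_left {ι : Type} (s : Finset ι) (u : Fin 4 → K) (f : ι → Fin 4 → K) :
    dot (∑ i ∈ s, f i) u = ∑ i ∈ s, dot (f i) u := by
  classical
  induction s using Finset.induction_on with
  | empty => simp [dot]
  | insert i s hi ih => rw [sum_insert hi, sum_insert hi, dot_add_left, ih]

/-- the dual frame -/
lemma dual_frame {F : Subfield K} {e : Fin 4 → Fin 4 → K} {g : (Fin 4 → K) ≃ₗ[K] (Fin 4 → K)}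
    (h1 : ∀ x, RatV F x ↔ RatV F (g x)) (h2 : ∀ x, g x = ∑ i, x i • e i) :
    ∃ n : Fin 4 → Fin 4 → K, (∀ i, RatV F (n i)) ∧ LinearIndependent K n ∧
      (∀ i j, dot (n i) (e j) = if i = j then 1 else 0) ∧
      ∀ t : Fin 4 → K, t = ∑ i, dot t (e i) • n i := by
  have hsymm : ∀ w, RatV F w → RatV F (g.symm w) := by
    intro w hw
    rw [h1, LinearEquiv.apply_symm_apply]
    exact hw
  have hsing : ∀ j, RatV F (Pi.single j (1 : K)) := by
    intro j i
    rw [Pi.single_apply]
    split_ifs
    · exact F.one_mem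
    · exact F.zero_mem
  let n : Fin 4 → Fin 4 → K := fun i j => g.symm (Pi.single j 1) i
  have hdot : ∀ i w, dot (n i) w = g.symm w i := by
    intro i w
    have : w = ∑ j, w j • (Pi.single j (1 : K) : Fin 4 → K) := by
      funext k
      rw [Finset.sum_apply]
      simp [Pi.single_apply]
    conv_rhs => rw [this]
    rw [map_sum, Finset.sum_apply]
    unfold dot
    refine sum_congr rfl fun j _ => ?_
    rw [map_smul, Pi.smul_apply, smul_eq_mul, mul_comm]
  have he : ∀ j, g (Pi.single j 1) = e j := by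
    intro j
    rw [h2]
    simp [Pi.single_apply]
  have hde : ∀ i j, dot (n i) (e j) = if i = j then 1 else 0 := by
    intro i j
    rw [hdot, ← he, LinearEquiv.symm_apply_apply, Pi.single_apply]
  refine ⟨n, fun i j => hsymm _ (hsing j) i, ?_, hde, ?_⟩
  · rw [Fintype.linearIndependent_iff]
    intro c hc j
    have := congrArg (fun t => dot t (e j)) hc
    simp only [dot_sum_left, dot_smul, hde] at this
    simpa [dot] using this
  · intro t
    refine dot_ext fun w => ?_
    rw [dot_sum_left]
    have hw : w = ∑ i, g.symm w i • e i := by rw [← h2, LinearEquiv.apply_symm_apply]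
    conv_lhs => rw [hw]
    rw [dot_sum_right]
    refine sum_congr rfl fun i _ => ?_
    rw [dot_smul_right, dot_smul, hdot, mul_comm]

lemma li_up {F : Subfield K} {m : ℕ} {e : Fin m → Fin 4 → F}
    (h : LinearIndependent K fun i => up (e i)) : LinearIndependent F e := by
  rw [Fintype.linearIndependent_iff] at h ⊢
  intro c hc j
  have := h (fun i => (c i : K)) (by
    funext k
    rw [Finset.sum_apply]
    have := congrArg (fun t : Fin 4 → F => ((t k : F) : K)) hc
    simp only [Finset.sum_apply, Pi.smul_apply, smul_eq_mul, Pi.zero_apply] at this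
    push_cast at this
    exact this) j
  exact Subtype.ext this

/-- two independent rational vectors are part of a rational frame -/
lemma frame2 {F : Subfield K} {u v : Fin 4 → K} (hu : RatV F u) (hv : RatV F v)
    (h : LinearIndependent K ![u, v]) :
    ∃ (c d : Fin 4 → K) (g : (Fin 4 → K) ≃ₗ[K] (Fin 4 → K)), RatV F c ∧ RatV F d ∧
      (∀ x, RatV F x ↔ RatV F (g x)) ∧ ∀ x, g x = ∑ i, x i • (![u, v, c, d] : Fin 4 → Fin 4 → K) i := by
  obtain ⟨u', rfl⟩ := exists_up hu
  obtain ⟨v', rfl⟩ := exists_up hv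
  have h1 : LinearIndependent F ![u', v'] := by
    apply li_up
    convert h using 1
    funext i
    fin_cases i <;> rfl
  obtain ⟨c, hc⟩ := exists_linearIndependent_snoc_of_lt_finrank h1 (by simp)
  obtain ⟨d, hd⟩ := exists_linearIndependent_snoc_of_lt_finrank hc (by simp)
  have h2 : (Fin.snoc (Fin.snoc ![u', v'] c : Fin 3 → Fin 4 → F) d : Fin 4 → Fin 4 → F) =
      ![u', v', c, d] := by
    funext i
    fin_cases i <;> rfl
  have h3 : LinearIndependent F ![u', v', c, d] := by
    rw [← h2]
    exact hd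
  obtain ⟨g, g1, g2⟩ := frame_up _ (det_ne _ h3)
  refine ⟨up c, up d, g, up_rat c, up_rat d, g1, fun x => ?_⟩
  rw [g2]
  refine sum_congr rfl fun i _ => ?_
  fin_cases i <;> rfl

/-- three independent rational vectors are part of a rational frame -/
lemma frame3 {F : Subfield K} {u v c : Fin 4 → K} (hu : RatV F u) (hv : RatV F v) (hc : RatV F c)
    (h : LinearIndependent K ![u, v, c]) :
    ∃ (d : Fin 4 → K) (g : (Fin 4 → K) ≃ₗ[K] (Fin 4 → K)), RatV F d ∧
      (∀ x, RatV F x ↔ RatV F (g x)) ∧ ∀ x, g x = ∑ i, x i • (![u, v, c, d] : Fin 4 → Fin 4 → K) i := by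
  obtain ⟨u', rfl⟩ := exists_up hu
  obtain ⟨v', rfl⟩ := exists_up hv
  obtain ⟨c', rfl⟩ := exists_up hc
  have h1 : LinearIndependent F ![u', v', c'] := by
    apply li_up
    convert h using 1
    funext i
    fin_cases i <;> rfl
  obtain ⟨d, hd⟩ := exists_linearIndependent_snoc_of_lt_finrank h1 (by simp)
  have h2 : (Fin.snoc ![u', v', c'] d : Fin 4 → Fin 4 → F) = ![u', v', c', d] := by
    funext i
    fin_cases i <;> rfl
  have h3 : LinearIndependent F ![u', v', c', d] := by
    rw [← h2]
    exact hd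
  obtain ⟨g, g1, g2⟩ := frame_up _ (det_ne _ h3)
  refine ⟨up d, g, up_rat d, g1, fun x => ?_⟩
  rw [g2]
  refine sum_congr rfl fun i _ => ?_
  fin_cases i <;> rfl

/-- the gradient is quadratic -/
lemma grad_quad (a : Arr K) (u v : Fin 4 → K) (α β : K) :
    grad a (α • u + β • v) = α ^ 2 • grad a u + (α * β) • (grad a (u + v) - grad a u - grad a v) +
      β ^ 2 • grad a v := by
  funext m
  simp only [grad, Pi.add_apply, Pi.smul_apply, Pi.sub_apply, smul_eq_mul, mul_sub, Finset.mul_sum,
    ← Finset.sum_add_distrib, ← Finset.sum_sub_distrib]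
  refine sum_congr rfl fun i _ => sum_congr rfl fun j _ => ?_
  ring

lemma grad_rat {F : Subfield K} {a : Arr K} (ha : ∀ i j k, a i j k ∈ F) {u : Fin 4 → K}
    (hu : RatV F u) : RatV F (grad a u) := by
  intro m
  exact F.sum_mem fun i _ => F.sum_mem fun j _ => F.mul_mem (F.mul_mem
    (F.add_mem (F.add_mem (ha _ _ _) (ha _ _ _)) (ha _ _ _)) (hu i)) (hu j)

lemma dot_rat {F : Subfield K} {u v : Fin 4 → K} (hu : RatV F u) (hv : RatV F v) : dot u v ∈ F :=
  F.sum_mem fun i _ => F.mul_mem (hu i) (hv i)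

/-- the gradient at a point of a line of the surface vanishes on the line -/
lemma grad_line [Infinite K] {a : Arr K} {W : Submodule K (Fin 4 → K)}
    (hW : ∀ p ∈ W, cub a p = 0) {p v : Fin 4 → K} (hp : p ∈ W) (hv : v ∈ W) :
    dot (grad a p) v = 0 := by
  refine poly3 (c0 := cub a p) (c2 := dot (grad a v) p) (c3 := cub a v) (d0 := 0) (d1 := 0)
    (d2 := 0) (d3 := 0) fun e => ?_
  rw [← cub_add, hW _ (W.add_mem hp (W.smul_mem e hv))]
  ring

end

end Pool.Agent.Q52.HE
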