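import Pool.Agent.Q52.HE.Grad

/-!
# Hyperbolic and elliptic lines: the normal form at a hyperbolic line
-/

namespace Pool.Agent.Q52.HE

open Finset

section
variable {K : Type} [Field K]

lemma fix_imp {a : Arr K} {u v n1 n2 : Fin 4 → K} {p0 p1 p2 r0 r1 r2 : K}
    (huv : LinearIndependent K ![u, v])
    (hg : ∀ α β : K, grad a (α • u + β • v) =
      (p0 * α ^ 2 + p1 * (α * β) + p2 * β ^ 2) • n1 +
      (r0 * α ^ 2 + r1 * (α * β) + r2 * β ^ 2) • n2)
    (hres : res2 p0 p1 p2 r0 r1 r2 ≠ 0) {x y : K} (hxy : x ≠ 0 ∨ y ≠ 0)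
    (hf : FixedPt a (Submodule.span K {u, v}) (x • u + y • v)) :
    ((p0 * r1 - p1 * r0) * x + (p0 * r2 - p2 * r0) * y) * x +
      ((p0 * r2 - p2 * r0) * x + (p1 * r2 - p2 * r1) * y) * y = 0 := by
  obtain ⟨A, hA⟩ : ∃ A, A = p0 * r1 - p1 * r0 := ⟨_, rfl⟩
  obtain ⟨B, hB⟩ : ∃ B, B = p0 * r2 - p2 * r0 := ⟨_, rfl⟩
  obtain ⟨C, hC⟩ : ∃ C, C = p1 * r2 - p2 * r1 := ⟨_, rfl⟩
  obtain ⟨N1, hN1⟩ : ∃ N : K → K → K, ∀ x y, N x y = p0 * x ^ 2 + p1 * (x * y) + p2 * y ^ 2 :=
    ⟨_, fun _ _ => rfl⟩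
  obtain ⟨N2, hN2⟩ : ∃ N : K → K → K, ∀ x y, N x y = r0 * x ^ 2 + r1 * (x * y) + r2 * y ^ 2 :=
    ⟨_, fun _ _ => rfl⟩
  have hg' : ∀ x y, grad a (x • u + y • v) = N1 x y • n1 + N2 x y • n2 := by
    intro x y
    rw [hN1, hN2]
    exact hg x y
  have hne : ∀ x y : K, (x ≠ 0 ∨ y ≠ 0) → N1 x y ≠ 0 ∨ N2 x y ≠ 0 := by
    intro x y hxy
    by_contra hcon
    push Not at hcon
    exact hres (common_zero hxy (by rw [← hN1]; exact hcon.1) (by rw [← hN2]; exact hcon.2))
  have hcross : ∀ x y x' y' : K, N1 x y * N2 x' y' - N2 x y * N1 x' y' =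
      (x * y' - x' * y) * ((A * x + B * y) * x' + (B * x + C * y) * y') := by
    intro x y x' y'
    rw [hN1, hN1, hN2, hN2, hA, hB, hC]
    ring
  have hsame : ∀ x y x' y' : K, (x ≠ 0 ∨ y ≠ 0) → (x' ≠ 0 ∨ y' ≠ 0) →
      N1 x y * N2 x' y' - N2 x y * N1 x' y' = 0 →
      SamePlane a (x • u + y • v) (x' • u + y' • v) := by
    intro x y x' y' h1 h2 h
    rcases hne x y h1 with h3 | h3
    · have e2 : N2 x' y' = N1 x' y' / N1 x y * N2 x y := by
        field_simp
        linear_combination h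
      refine ⟨N1 x' y' / N1 x y, ?_, ?_⟩
      · intro h4
        have h5 : N1 x' y' = 0 := by
          rcases div_eq_zero_iff.1 h4 with h | h
          · exact h
          · exact absurd h h3
        rcases hne x' y' h2 with h6 | h6
        · exact h6 h5
        · apply h6
          rw [e2, h5]
          simp
      · rw [hg', hg', smul_add, smul_smul, smul_smul, ← e2, div_mul_cancel₀ _ h3]
    · have e2 : N1 x' y' = N2 x' y' / N2 x y * N1 x y := by
        field_simp
        linear_combination -h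
      refine ⟨N2 x' y' / N2 x y, ?_, ?_⟩
      · intro h4
        have h5 : N2 x' y' = 0 := by
          rcases div_eq_zero_iff.1 h4 with h | h
          · exact h
          · exact absurd h h3
        rcases hne x' y' h2 with h6 | h6
        · apply h6
          rw [e2, h5]
          simp
        · exact h6 h5
      · rw [hg', hg', smul_add, smul_smul, smul_smul, ← e2, div_mul_cancel₀ _ h3]
  rw [← hA, ← hB, ← hC]
  by_contra hJ
  have hcr : x * (A * x + B * y) - -(B * x + C * y) * y ≠ 0 := by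
    intro h5
    apply hJ
    linear_combination h5
  have h6 : (-(B * x + C * y)) ≠ 0 ∨ (A * x + B * y) ≠ 0 := by
    by_contra hcon
    push Not at hcon
    apply hcr
    rw [hcon.1, hcon.2]
    ring
  obtain ⟨c, hc⟩ := hf.2.2 ((-(B * x + C * y)) • u + (A * x + B * y) • v)
    (Submodule.mem_span_pair.2 ⟨_, _, rfl⟩) (comb_ne huv h6) (hsame _ _ _ _ hxy h6 (by
      rw [hcross]; ring))
  rw [smul_add, smul_smul, smul_smul] at hc
  have := comb_inj huv hc
  apply hcr
  rw [this.1, this.2]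
  ring

/-- a rational frame gives a rational equivalence -/
lemma frame4 {F : Subfield K} {e : Fin 4 → Fin 4 → K} (he : ∀ i, RatV F (e i))
    (h : LinearIndependent K e) : ∃ g : (Fin 4 → K) ≃ₗ[K] (Fin 4 → K),
      (∀ x, RatV F x ↔ RatV F (g x)) ∧ ∀ x, g x = ∑ i, x i • e i := by
  choose e' he' using fun i => exists_up (he i)
  have h1 : LinearIndependent F e' := by
    apply li_up
    convert h using 1
    funext i
    exact he' i
  obtain ⟨g, g1, g2⟩ := frame_up e' (det_ne e' h1)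
  refine ⟨g, g1, fun x => ?_⟩
  rw [g2]
  simp only [he']

lemma smul_rat {F : Subfield K} {c : K} (hc : c ∈ F) {u : Fin 4 → K} (hu : RatV F u) :
    RatV F (c • u) := fun i => F.mul_mem hc (hu i)

lemma cub_rat {F : Subfield K} {a : Arr K} (ha : ∀ i j k, a i j k ∈ F) {u : Fin 4 → K}
    (hu : RatV F u) : cub a u ∈ F :=
  F.sum_mem fun i _ => F.sum_mem fun j _ => F.sum_mem fun k _ =>
    F.mul_mem (F.mul_mem (F.mul_mem (ha i j k) (hu i)) (hu j)) (hu k)

lemma cub_two (a : Arr K) (c d : Fin 4 → K) (z w : K) :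
    cub a (z • c + w • d) = z ^ 3 * cub a c + z ^ 2 * w * dot (grad a c) d +
      z * w ^ 2 * dot (grad a d) c + w ^ 3 * cub a d := by
  have hc : ∀ (r : K) (x : Fin 4 → K), cub a (r • x) = r ^ 3 * cub a x := by
    intro r x
    unfold cub
    simp only [Pi.smul_apply, smul_eq_mul, Finset.mul_sum]
    refine sum_congr rfl fun i _ => sum_congr rfl fun j _ => sum_congr rfl fun k _ => by ring
  have hgr : ∀ (r : K) (x : Fin 4 → K), grad a (r • x) = r ^ 2 • grad a x := by
    intro r x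
    funext m
    simp only [grad, Pi.smul_apply, smul_eq_mul, Finset.mul_sum]
    refine sum_congr rfl fun i _ => sum_congr rfl fun j _ => by ring
  rw [cub_add, hc, hgr, dot_smul, dot_smul_right]
  ring

lemma cub_arrN (β γ g3 g2 g1 g0 : K) (x : Fin 4 → K) :
    cub (arrN β γ g3 g2 g1 g0) x = x 2 * x 0 ^ 2 - x 3 * x 1 ^ 2 + 2 * β * x 3 ^ 2 * x 0 +
      2 * γ * x 2 ^ 2 * x 1 + g3 * x 2 ^ 3 + g2 * x 2 ^ 2 * x 3 + g1 * x 2 * x 3 ^ 2 +
      g0 * x 3 ^ 3 := by
  unfold cub
  simp [Fin.sum_univ_four, arrN]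
  ring

end

/-- J9 -/
theorem nf : S_nf := by
  intro K _ _ F h2 a W ha hs hW hH
  have hinf : Infinite K := IsAlgClosed.instInfinite
  obtain ⟨u, v, hu, hv, fu, fv, hne⟩ := hH
  have huv : LinearIndependent K ![u, v] := by
    rw [LinearIndependent.pair_iff' fu.2.1]
    intro c hc
    exact hne c hc.symm
  have hspan : Submodule.span K {u, v} = W := by
    refine Submodule.eq_of_le_of_finrank_eq ?_ ?_
    · rw [Submodule.span_le]
      intro x hx
      rcases hx with rfl | hx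
      · exact fu.1
      · rw [Set.mem_singleton_iff] at hx
        rw [hx]
        exact fv.1
    · rw [hW.1]
      have := finrank_span_eq_card huv
      rw [Matrix.range_cons, Matrix.range_cons, Matrix.range_empty, Set.union_empty,
        Set.singleton_union] at this
      rw [this]
      rfl
  rw [← hspan] at hW fu fv
  have hu' : u ∈ Submodule.span K {u, v} := Submodule.subset_span (by simp)
  have hv' : v ∈ Submodule.span K {u, v} := Submodule.subset_span (by simp)
  obtain ⟨c, d, g, hc, hd, g1, g2⟩ := frame2 hu hv huv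
  obtain ⟨n, n1, n2, n3, n4⟩ := dual_frame g1 g2
  have gu := grad_rat ha hu
  have gv := grad_rat ha hv
  obtain ⟨P0, hP0⟩ : ∃ z, z = dot (grad a u) c := ⟨_, rfl⟩
  obtain ⟨P1, hP1⟩ : ∃ z, z = dot (grad a (u + v)) c - dot (grad a u) c - dot (grad a v) c :=
    ⟨_, rfl⟩
  obtain ⟨P2, hP2⟩ : ∃ z, z = dot (grad a v) c := ⟨_, rfl⟩
  obtain ⟨R0, hR0⟩ : ∃ z, z = dot (grad a u) d := ⟨_, rfl⟩
  obtain ⟨R1, hR1⟩ : ∃ z, z = dot (grad a (u + v)) d - dot (grad a u) d - dot (grad a v) d :=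
    ⟨_, rfl⟩
  obtain ⟨R2, hR2⟩ : ∃ z, z = dot (grad a v) d := ⟨_, rfl⟩
  have P0F : P0 ∈ F := by rw [hP0]; exact dot_rat gu hc
  have P2F : P2 ∈ F := by rw [hP2]; exact dot_rat gv hc
  have R0F : R0 ∈ F := by rw [hR0]; exact dot_rat gu hd
  have R2F : R2 ∈ F := by rw [hR2]; exact dot_rat gv hd
  have dc : ∀ α β : K, dot (grad a (α • u + β • v)) c = P0 * α ^ 2 + P1 * (α * β) + P2 * β ^ 2 := by
    intro α β
    rw [dot_quad, hP0, hP1, hP2]
  have dd : ∀ α β : K, dot (grad a (α • u + β • v)) d = R0 * α ^ 2 + R1 * (α * β) + R2 * β ^ 2 := by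
    intro α β
    rw [dot_quad, hR0, hR1, hR2]
  have du : ∀ α β : K, dot (grad a (α • u + β • v)) u = 0 := fun α β =>
    grad_line hW.2 (Submodule.mem_span_pair.2 ⟨α, β, rfl⟩) hu'
  have dv : ∀ α β : K, dot (grad a (α • u + β • v)) v = 0 := fun α β =>
    grad_line hW.2 (Submodule.mem_span_pair.2 ⟨α, β, rfl⟩) hv'
  have key : ∀ α β : K, grad a (α • u + β • v) =
      (P0 * α ^ 2 + P1 * (α * β) + P2 * β ^ 2) • n 2 +
      (R0 * α ^ 2 + R1 * (α * β) + R2 * β ^ 2) • n 3 := by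
    intro α β
    have := n4 (grad a (α • u + β • v))
    rw [Fin.sum_univ_four] at this
    simp only [Matrix.cons_val_zero, Matrix.cons_val_one, Matrix.cons_val] at this
    rw [du, dv, zero_smul, zero_smul, zero_add, zero_add, dc, dd] at this
    exact this
  have hres := smooth_res h2 hs huv hW.2 key
  have hA : P0 * R1 - P1 * R0 = 0 := by
    have := fix_imp huv key hres (x := 1) (y := 0) (Or.inl one_ne_zero) (by simpa using fu)
    linear_combination this
  have hC : P1 * R2 - P2 * R1 = 0 := by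
    have := fix_imp huv key hres (x := 0) (y := 1) (Or.inr one_ne_zero) (by simpa using fv)
    linear_combination this
  have hB : P0 * R2 - P2 * R0 ≠ 0 := by
    intro h
    apply hres
    unfold res2
    rw [h, hA]
    ring
  have hP1' : P1 = 0 := by
    have : P1 * (P0 * R2 - P2 * R0) = 0 := by linear_combination P0 * hC + P2 * hA
    exact (mul_eq_zero.1 this).resolve_right hB
  have hR1' : R1 = 0 := by
    have : R1 * (P0 * R2 - P2 * R0) = 0 := by linear_combination R2 * hA + R0 * hC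
    exact (mul_eq_zero.1 this).resolve_right hB
  have BF : P0 * R2 - P2 * R0 ∈ F := F.sub_mem (F.mul_mem P0F R2F) (F.mul_mem P2F R0F)
  obtain ⟨B, hBd⟩ : ∃ B, B = P0 * R2 - P2 * R0 := ⟨_, rfl⟩
  rw [← hBd] at hB BF
  -- the new vectors
  obtain ⟨c', hc'⟩ : ∃ t : Fin 4 → K, t = (R2 / B) • c + (-P2 / B) • d := ⟨_, rfl⟩
  obtain ⟨d', hd'⟩ : ∃ t : Fin 4 → K, t = (R0 / B) • c + (-P0 / B) • d := ⟨_, rfl⟩
  have rc' : RatV F c' := by
    rw [hc']
    exact add_rat (smul_rat (F.div_mem R2F BF) hc) (smul_rat (F.div_mem (F.neg_mem P2F) BF) hd)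
  have rd' : RatV F d' := by
    rw [hd']
    exact add_rat (smul_rat (F.div_mem R0F BF) hc) (smul_rat (F.div_mem (F.neg_mem P0F) BF) hd)
  have dc' : ∀ α β : K, dot (grad a (α • u + β • v)) c' = α ^ 2 := by
    intro α β
    rw [hc', dot_add_right, dot_smul_right, dot_smul_right, dc, dd, hP1', hR1']
    field_simp
    rw [hBd]
    ring
  have dd' : ∀ α β : K, dot (grad a (α • u + β • v)) d' = -β ^ 2 := by
    intro α β
    rw [hd', dot_add_right, dot_smul_right, dot_smul_right, dc, dd, hP1', hR1']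
    field_simp
    rw [hBd]
    ring
  have gc := grad_rat ha rc'
  have gd := grad_rat ha rd'
  have gcd := grad_rat ha (add_rat rc' rd')
  obtain ⟨q1, hq1⟩ : ∃ z, z = dot (grad a c') u := ⟨_, rfl⟩
  obtain ⟨q2, hq2⟩ : ∃ z, z = dot (grad a (c' + d')) u - dot (grad a c') u - dot (grad a d') u :=
    ⟨_, rfl⟩
  obtain ⟨q3, hq3⟩ : ∃ z, z = dot (grad a d') u := ⟨_, rfl⟩
  obtain ⟨k1, hk1⟩ : ∃ z, z = dot (grad a c') v := ⟨_, rfl⟩
  obtain ⟨k2, hk2⟩ : ∃ z, z = dot (grad a (c' + d')) v - dot (grad a c') v - dot (grad a d') v :=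
    ⟨_, rfl⟩
  obtain ⟨k3, hk3⟩ : ∃ z, z = dot (grad a d') v := ⟨_, rfl⟩
  have q1F : q1 ∈ F := by rw [hq1]; exact dot_rat gc hu
  have q2F : q2 ∈ F := by
    rw [hq2]; exact F.sub_mem (F.sub_mem (dot_rat gcd hu) (dot_rat gc hu)) (dot_rat gd hu)
  have q3F : q3 ∈ F := by rw [hq3]; exact dot_rat gd hu
  have k1F : k1 ∈ F := by rw [hk1]; exact dot_rat gc hv
  have k2F : k2 ∈ F := by
    rw [hk2]; exact F.sub_mem (F.sub_mem (dot_rat gcd hv) (dot_rat gc hv)) (dot_rat gd hv)
  have k3F : k3 ∈ F := by rw [hk3]; exact dot_rat gd hv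
  have twoF : (2 : K) ∈ F := by
    have := F.add_mem F.one_mem F.one_mem
    rwa [one_add_one_eq_two] at this
  have e4 : (2 : K) * 2 = 4 := by norm_num
  have fourF : (4 : K) ∈ F := by
    rw [← e4]
    exact F.mul_mem twoF twoF
  have h4 : (4 : K) ≠ 0 := by
    rw [← e4]
    exact mul_ne_zero h2 h2
  have hexp : ∀ s t z w : K, cub a ((s • u + t • v) + (z • c' + w • d')) =
      z * s ^ 2 - w * t ^ 2 + s * (q1 * z ^ 2 + q2 * (z * w) + q3 * w ^ 2) +
      t * (k1 * z ^ 2 + k2 * (z * w) + k3 * w ^ 2) + (z ^ 3 * cub a c' +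
      z ^ 2 * w * dot (grad a c') d' + z * w ^ 2 * dot (grad a d') c' + w ^ 3 * cub a d') := by
    intro s t z w
    have h1 := cub_add a (s • u + t • v) (z • c' + w • d') 1
    rw [one_smul, one_mul, one_pow, one_mul, one_pow, one_mul] at h1
    rw [h1, hW.2 _ (Submodule.mem_span_pair.2 ⟨s, t, rfl⟩), cub_two, dot_add_right, dot_smul_right,
      dot_smul_right, dc', dd', dot_add_right, dot_smul_right, dot_smul_right, dot_quad, dot_quad,
      ← hq2, ← hk2, ← hq1, ← hq3, ← hk1, ← hk3]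
    ring
  -- the frame
  obtain ⟨c2, hc2⟩ : ∃ t : Fin 4 → K, t = c' + ((-q1 / 2) • u + (k2 / 2) • v) := ⟨_, rfl⟩
  obtain ⟨d2, hd2⟩ : ∃ t : Fin 4 → K, t = d' + ((-q2 / 2) • u + (k3 / 2) • v) := ⟨_, rfl⟩
  have rc2 : RatV F c2 := by
    rw [hc2]
    exact add_rat rc' (add_rat (smul_rat (F.div_mem (F.neg_mem q1F) twoF) hu)
      (smul_rat (F.div_mem k2F twoF) hv))
  have rd2 : RatV F d2 := by
    rw [hd2]
    exact add_rat rd' (add_rat (smul_rat (F.div_mem (F.neg_mem q2F) twoF) hu)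
      (smul_rat (F.div_mem k3F twoF) hv))
  have dc2 : ∀ α β : K, dot (grad a (α • u + β • v)) c2 = α ^ 2 := by
    intro α β
    rw [hc2, dot_add_right, dot_add_right, dot_smul_right, dot_smul_right, dc', du, dv]
    ring
  have dd2 : ∀ α β : K, dot (grad a (α • u + β • v)) d2 = -β ^ 2 := by
    intro α β
    rw [hd2, dot_add_right, dot_add_right, dot_smul_right, dot_smul_right, dd', du, dv]
    ring
  have hli : LinearIndependent K (![u, v, c2, d2] : Fin 4 → Fin 4 → K) := by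
    rw [Fintype.linearIndependent_iff]
    intro f hf
    rw [Fin.sum_univ_four] at hf
    simp only [Matrix.cons_val_zero, Matrix.cons_val_one, Matrix.cons_val] at hf
    have e : ∀ α β : K, f 2 * α ^ 2 - f 3 * β ^ 2 = 0 := by
      intro α β
      have := congrArg (fun t => dot (grad a (α • u + β • v)) t) hf
      simp only [dot_add_right, dot_smul_right, du, dv, dc2, dd2] at this
      have z : dot (grad a (α • u + β • v)) 0 = 0 := by simp [dot]
      rw [z] at this
      linear_combination this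
    have f2 : f 2 = 0 := by
      have := e 1 0
      linear_combination this
    have f3 : f 3 = 0 := by
      have := e 0 1
      linear_combination -this
    rw [f2, f3, zero_smul, zero_smul, add_zero, add_zero] at hf
    have f01 := comb_inj huv (x := f 0) (y := f 1) (x' := 0) (y' := 0) (by rw [hf]; simp)
    intro i
    fin_cases i
    · exact f01.1
    · exact f01.2
    · exact f2
    · exact f3
  obtain ⟨G, G1, G2⟩ := frame4 (F := F) (e := ![u, v, c2, d2]) (by
    intro i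
    fin_cases i
    · exact hu
    · exact hv
    · exact rc2
    · exact rd2) hli
  have halfF : ∀ z ∈ F, z / 2 ∈ F := fun z hz => F.div_mem hz twoF
  have quF : ∀ z ∈ F, z / 4 ∈ F := fun z hz => F.div_mem hz fourF
  refine ⟨q3 / 2, k1 / 2, cub a c' - q1 ^ 2 / 4 + k1 * k2 / 2,
    dot (grad a c') d' - q1 * q2 / 2 + k2 ^ 2 / 4 + k1 * k3 / 2,
    dot (grad a d') c' - q2 ^ 2 / 4 - q1 * q3 / 2 + k2 * k3 / 2,
    cub a d' - q2 * q3 / 2 + k3 ^ 2 / 4, halfF _ q3F, halfF _ k1F, ?_, ?_, ?_, ?_, G, G1, ?_⟩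
  · exact F.add_mem (F.sub_mem (cub_rat ha rc') (quF _ (F.pow_mem q1F 2))) (halfF _ (F.mul_mem k1F k2F))
  · exact F.add_mem (F.add_mem (F.sub_mem (dot_rat gc rd') (halfF _ (F.mul_mem q1F q2F)))
      (quF _ (F.pow_mem k2F 2))) (halfF _ (F.mul_mem k1F k3F))
  · exact F.add_mem (F.sub_mem (F.sub_mem (dot_rat gd rc') (quF _ (F.pow_mem q2F 2)))
      (halfF _ (F.mul_mem q1F q3F))) (halfF _ (F.mul_mem k2F k3F))
  · exact F.add_mem (F.sub_mem (cub_rat ha rd') (halfF _ (F.mul_mem q2F q3F))) (quF _ (F.pow_mem k3F 2))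
  · intro x
    have hx : G x = ((x 0 - q1 / 2 * x 2 - q2 / 2 * x 3) • u + (x 1 + k2 / 2 * x 2 + k3 / 2 * x 3) • v) +
        (x 2 • c' + x 3 • d') := by
      rw [G2, Fin.sum_univ_four]
      simp only [Matrix.cons_val_zero, Matrix.cons_val_one, Matrix.cons_val, hc2, hd2]
      funext j
      simp only [Pi.add_apply, Pi.smul_apply, smul_eq_mul]
      ring
    rw [hx, hexp, cub_arrN]
    field_simp
    ring

end Pool.Agent.Q52.HE
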