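import Pool.Agent.Q52.HE.Stm

/-!
# Hyperbolic and elliptic lines: changes of coordinates
-/

namespace Pool.Agent.Q52.HE

open Finset

section
variable {K : Type} [Field K]

set_option maxRecDepth 10000 in
lemma cub_add (a : Arr K) (p v : Fin 4 → K) (e : K) :
    cub a (p + e • v) = cub a p + e * dot (grad a p) v + e ^ 2 * dot (grad a v) p +
      e ^ 3 * cub a v := by
  have h1 : ∀ i j k : Fin 4, a i j k * (p i + e * v i) * (p j + e * v j) * (p k + e * v k) =
      a i j k * p i * p j * p k + e * (a i j k * v i * p j * p k + a i j k * p i * v j * p k +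
        a i j k * p i * p j * v k) + e ^ 2 * (a i j k * p i * v j * v k +
        a i j k * v i * p j * v k + a i j k * v i * v j * p k) +
        e ^ 3 * (a i j k * v i * v j * v k) := fun i j k => by ring
  have g1 : ∀ q w : Fin 4 → K, dot (grad a q) w =
      ∑ i, ∑ j, ∑ k, (a i j k * w i * q j * q k + a i j k * q i * w j * q k +
        a i j k * q i * q j * w k) := by
    intro q w
    unfold dot grad
    simp only [Finset.sum_mul, add_mul, Finset.sum_add_distrib]
    congr 1
    · congr 1
      · refine sum_congr rfl fun i _ => sum_congr rfl fun j _ => sum_congr rfl fun k _ => by ring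
      · rw [sum_comm]
        refine sum_congr rfl fun i _ => sum_congr rfl fun j _ => sum_congr rfl fun k _ => by ring
    · rw [sum_comm]
      refine sum_congr rfl fun i _ => ?_
      rw [sum_comm]
  have g2 : dot (grad a v) p = ∑ i, ∑ j, ∑ k, (a i j k * p i * v j * v k +
      a i j k * v i * p j * v k + a i j k * v i * v j * p k) := g1 v p
  have g3 : cub a (p + e • v) = ∑ i, ∑ j, ∑ k, (a i j k * p i * p j * p k +
      e * (a i j k * v i * p j * p k + a i j k * p i * v j * p k + a i j k * p i * p j * v k) +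
      e ^ 2 * (a i j k * p i * v j * v k + a i j k * v i * p j * v k + a i j k * v i * v j * p k) +
      e ^ 3 * (a i j k * v i * v j * v k)) := by
    unfold cub
    refine sum_congr rfl fun i _ => sum_congr rfl fun j _ => sum_congr rfl fun k _ => ?_
    rw [← h1 i j k]
    simp only [Pi.add_apply, Pi.smul_apply, smul_eq_mul]
  rw [g2, g1 p v, g3]
  unfold cub
  simp only [Finset.sum_add_distrib, ← Finset.mul_sum]

lemma poly3 [Infinite K] {c0 c1 c2 c3 d0 d1 d2 d3 : K}
    (h : ∀ e : K, c0 + e * c1 + e ^ 2 * c2 + e ^ 3 * c3 = d0 + e * d1 + e ^ 2 * d2 + e ^ 3 * d3) :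
    c1 = d1 := by
  have : (Polynomial.C c0 + Polynomial.C c1 * Polynomial.X + Polynomial.C c2 * Polynomial.X ^ 2 +
      Polynomial.C c3 * Polynomial.X ^ 3 : Polynomial K) =
      Polynomial.C d0 + Polynomial.C d1 * Polynomial.X + Polynomial.C d2 * Polynomial.X ^ 2 +
      Polynomial.C d3 * Polynomial.X ^ 3 := by
    refine Polynomial.funext fun e => ?_
    have := h e
    simp only [Polynomial.eval_add, Polynomial.eval_mul, Polynomial.eval_C, Polynomial.eval_X,
      Polynomial.eval_pow]
    linear_combination this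
  have := congrArg (fun P : Polynomial K => P.coeff 1) this
  simpa [Polynomial.coeff_X, Polynomial.coeff_X_pow, Polynomial.coeff_C] using this

lemma dot_single (u : Fin 4 → K) (i : Fin 4) : dot u (Pi.single i 1) = u i := by
  unfold dot
  simp [Pi.single_apply]

lemma dot_ext {u u' : Fin 4 → K} (h : ∀ v, dot u v = dot u' v) : u = u' := by
  funext i
  rw [← dot_single u i, h, dot_single]

lemma dot_smul (c : K) (u v : Fin 4 → K) : dot (c • u) v = c * dot u v := by
  unfold dot
  simp [Finset.mul_sum, mul_assoc]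

lemma dot_grad [Infinite K] {a b : Arr K} {g : (Fin 4 → K) ≃ₗ[K] (Fin 4 → K)}
    (h : ∀ x, cub b x = cub a (g x)) (p v : Fin 4 → K) :
    dot (grad b p) v = dot (grad a (g p)) (g v) := by
  refine poly3 (c0 := cub b p) (c2 := dot (grad b v) p) (c3 := cub b v) (d0 := cub a (g p))
    (d2 := dot (grad a (g v)) (g p)) (d3 := cub a (g v)) fun e => ?_
  rw [← cub_add, ← cub_add, h, map_add, map_smul]

end

/-- J2 -/
theorem rel : S_rel := by
  intro K _ _ F a b ⟨g, hrat, hcub⟩
  have hd := fun p v => dot_grad hcub p v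
  have hgr : ∀ p p' (c : K), grad b p' = c • grad b p ↔ grad a (g p') = c • grad a (g p) := by
    intro p p' c
    constructor
    · intro h
      refine dot_ext fun v => ?_
      obtain ⟨w, rfl⟩ := g.surjective v
      rw [← hd, h, dot_smul, dot_smul, hd]
    · intro h
      refine dot_ext fun v => ?_
      rw [hd, h, dot_smul, dot_smul, hd]
  have hg0 : ∀ p, grad b p = 0 ↔ grad a (g p) = 0 := by
    intro p
    have := hgr p p 0
    simpa using this
  have hsp : ∀ p p', SamePlane b p p' ↔ SamePlane a (g p) (g p') := by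
    intro p p'
    unfold SamePlane
    refine exists_congr fun c => and_congr_right fun _ => hgr p p' c
  have hmm : ∀ (W : Submodule K (Fin 4 → K)) p, g p ∈ W.map (g : (Fin 4 → K) →ₗ[K] (Fin 4 → K)) ↔
      p ∈ W := by
    intro W p
    constructor
    · rintro ⟨q, hq, h⟩
      have : q = p := g.injective h
      rwa [← this]
    · intro h
      exact ⟨p, h, rfl⟩
  have hfp : ∀ (W : Submodule K (Fin 4 → K)) p, FixedPt b W p ↔
      FixedPt a (W.map (g : (Fin 4 → K) →ₗ[K] (Fin 4 → K))) (g p) := by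
    intro W p
    unfold FixedPt
    rw [hmm, g.map_ne_zero_iff]
    refine and_congr_right fun _ => and_congr_right fun _ => ?_
    constructor
    · intro h q hq hq0 hs
      obtain ⟨p', rfl⟩ := g.surjective q
      obtain ⟨c, hc⟩ := h p' ((hmm _ _).1 hq) (g.map_ne_zero_iff.1 hq0) ((hsp _ _).2 hs)
      exact ⟨c, by rw [hc, map_smul]⟩
    · intro h p' hp' hp0 hs
      obtain ⟨c, hc⟩ := h (g p') ((hmm _ _).2 hp') (g.map_ne_zero_iff.2 hp0) ((hsp _ _).1 hs)
      exact ⟨c, g.injective (by rw [hc, map_smul])⟩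
  have hhyp : ∀ W : Submodule K (Fin 4 → K), Hyperbolic F b W ↔
      Hyperbolic F a (W.map (g : (Fin 4 → K) →ₗ[K] (Fin 4 → K))) := by
    intro W
    constructor
    · rintro ⟨u, v, h1, h2, h3, h4, h5⟩
      refine ⟨g u, g v, (hrat u).1 h1, (hrat v).1 h2, (hfp _ _).1 h3, (hfp _ _).1 h4, fun c hc => ?_⟩
      exact h5 c (g.injective (by rw [hc, map_smul]))
    · rintro ⟨u, v, h1, h2, h3, h4, h5⟩
      obtain ⟨u, rfl⟩ := g.surjective u
      obtain ⟨v, rfl⟩ := g.surjective v
      refine ⟨u, v, (hrat u).2 h1, (hrat v).2 h2, (hfp _ _).2 h3, (hfp _ _).2 h4, fun c hc => ?_⟩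
      exact h5 c (by rw [hc, map_smul])
  have hell : ∀ W : Submodule K (Fin 4 → K), Elliptic F b W ↔
      Elliptic F a (W.map (g : (Fin 4 → K) →ₗ[K] (Fin 4 → K))) := by
    intro W
    constructor
    · intro h u hu hf
      obtain ⟨u, rfl⟩ := g.surjective u
      exact h u ((hrat u).2 hu) ((hfp _ _).2 hf)
    · intro h u hu hf
      exact h (g u) ((hrat u).1 hu) ((hfp _ _).1 hf)
  have hmap : ∀ W : Submodule K (Fin 4 → K), W ∈ Lines b ↔
      W.map (g : (Fin 4 → K) →ₗ[K] (Fin 4 → K)) ∈ Lines a := by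
    intro W
    unfold Lines
    rw [Set.mem_ofPred_eq, Set.mem_ofPred_eq, LinearEquiv.finrank_map_eq]
    refine and_congr_right fun _ => ?_
    constructor
    · rintro h q ⟨p, hp, rfl⟩
      have := h p hp
      rw [hcub] at this
      exact this
    · intro h p hp
      rw [hcub]
      exact h _ ((hmm _ _).2 hp)
  have hsurj : ∀ V : Submodule K (Fin 4 → K), ∃ W : Submodule K (Fin 4 → K),
      W.map (g : (Fin 4 → K) →ₗ[K] (Fin 4 → K)) = V := by
    intro V
    refine ⟨V.comap (g : (Fin 4 → K) →ₗ[K] (Fin 4 → K)), ?_⟩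
    exact Submodule.map_comap_eq_of_surjective g.surjective V
  have hinj : Function.Injective fun W : Submodule K (Fin 4 → K) =>
      W.map (g : (Fin 4 → K) →ₗ[K] (Fin 4 → K)) :=
    Submodule.map_injective_of_injective g.injective
  have himg : ∀ P Q : Submodule K (Fin 4 → K) → Prop,
      (∀ W, Q W ↔ P (W.map (g : (Fin 4 → K) →ₗ[K] (Fin 4 → K)))) →
      {W | W ∈ Lines a ∧ P W}.ncard = {W | W ∈ Lines b ∧ Q W}.ncard := by
    intro P Q hPQ
    have : {W | W ∈ Lines a ∧ P W} = (fun W : Submodule K (Fin 4 → K) =>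
        W.map (g : (Fin 4 → K) →ₗ[K] (Fin 4 → K))) '' {W | W ∈ Lines b ∧ Q W} := by
      ext V
      constructor
      · rintro ⟨h1, h2⟩
        obtain ⟨W, rfl⟩ := hsurj V
        exact ⟨W, ⟨(hmap W).2 h1, (hPQ W).2 h2⟩, rfl⟩
      · rintro ⟨W, ⟨h1, h2⟩, rfl⟩
        exact ⟨(hmap W).1 h1, (hPQ W).1 h2⟩
    rw [this, Set.ncard_image_of_injective _ hinj]
  have hdef : ∀ W : Submodule K (Fin 4 → K), DefinedOver F W ↔
      DefinedOver F (W.map (g : (Fin 4 → K) →ₗ[K] (Fin 4 → K))) := by
    intro W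
    constructor
    · rintro ⟨u, v, hu, hv, rfl⟩
      refine ⟨g u, g v, (hrat u).1 hu, (hrat v).1 hv, ?_⟩
      rw [Submodule.map_span, Set.image_pair]
      rfl
    · rintro ⟨u, v, hu, hv, h⟩
      obtain ⟨u, rfl⟩ := g.surjective u
      obtain ⟨v, rfl⟩ := g.surjective v
      refine ⟨u, v, (hrat u).2 hu, (hrat v).2 hv, hinj ?_⟩
      change W.map _ = (Submodule.span K {u, v}).map _
      rw [h, Submodule.map_span, Set.image_pair]
      rfl
  refine ⟨?_, ?_, ?_, ?_, ?_⟩
  · constructor
    · intro h p hp hc hgp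
      exact h (g p) (g.map_ne_zero_iff.2 hp) (by rw [← hcub]; exact hc) ((hg0 p).1 hgp)
    · intro h q hq hc hgq
      obtain ⟨p, rfl⟩ := g.surjective q
      exact h p (g.map_ne_zero_iff.1 hq) (by rw [hcub]; exact hc) ((hg0 p).2 hgq)
  · have := himg (fun _ => True) (fun _ => True) (fun _ => Iff.rfl)
    simpa using this
  · constructor
    · intro h W hW
      exact (hdef W).2 (h _ ((hmap W).1 hW))
    · intro h V hV
      obtain ⟨W, rfl⟩ := hsurj V
      exact (hdef W).1 (h W ((hmap W).2 hV))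
  · exact himg _ _ hhyp
  · exact himg _ _ hell

end Pool.Agent.Q52.HE
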